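import Pool.Agent.Q208.DI.Tri2

/-!
# Regular triangulations of finite sets in the plane
-/

set_option autoImplicit false

namespace Pool.Agent.Q208.DI

open MeasureTheory Set

/-- `x` is strictly inside the positively oriented triangle `a b d` -/
def In (x a b d : ℂ) : Prop :=
  0 < cr (b - x) (d - x) ∧ 0 < cr (d - x) (a - x) ∧ 0 < cr (a - x) (b - x)

/-- affine functions, with the centre `o` -/
def aff (o : ℂ) (k : ℝ) (x : ℂ) : ℝ := 2 * dt o x + k

theorem cr_sum (x a b d : ℂ) :
    cr (b - x) (d - x) + cr (d - x) (a - x) + cr (a - x) (b - x) = cr (b - a) (d - a) := by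
  unfold cr; simp; ring

theorem In.pos {x a b d : ℂ} (h : In x a b d) : 0 < cr (b - a) (d - a) := by
  rw [← cr_sum x]; linarith [h.1, h.2.1, h.2.2]

theorem In.rot {x a b d : ℂ} (h : In x a b d) : In x b d a := ⟨h.2.1, h.2.2, h.1⟩

/-- an affine function in barycentric coordinates -/
theorem aff_bary (o : ℂ) (k : ℝ) (x a b d : ℂ) :
    cr (b - a) (d - a) * aff o k x = cr (b - x) (d - x) * aff o k a +
      cr (d - x) (a - x) * aff o k b + cr (a - x) (b - x) * aff o k d := by
  unfold aff cr dt; simp; ring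

/-- the affine function with given values at three points -/
theorem exists_aff {a b d : ℂ} (hD : cr (b - a) (d - a) ≠ 0) (ha hb hd : ℝ) :
    ∃ o k, aff o k a = ha ∧ aff o k b = hb ∧ aff o k d = hd := by
  set D := cr (b - a) (d - a) with hDdef
  have hD2 : D = (b.re - a.re) * (d.im - a.im) - (b.im - a.im) * (d.re - a.re) := by
    rw [hDdef]; unfold cr; simp
  set o : ℂ := ⟨((hb - ha) * (d.im - a.im) - (hd - ha) * (b.im - a.im)) / (2 * D),
    ((hd - ha) * (b.re - a.re) - (hb - ha) * (d.re - a.re)) / (2 * D)⟩ with ho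
  refine ⟨o, ha - 2 * dt o a, ?_, ?_, ?_⟩
  · unfold aff; ring
  · unfold aff dt
    rw [ho]
    simp only
    field_simp
    rw [hD2]; ring
  · unfold aff dt
    rw [ho]
    simp only
    field_simp
    rw [hD2]; ring

section Points

variable {n : ℕ} (p : Fin n → ℂ) (h : Fin n → ℝ)

/-- `i j k` is a triangle of the regular triangulation with heights `h`, with centre `o` and
constant `κ` -/
def Del (i j k : Fin n) (o : ℂ) (κ : ℝ) : Prop :=
  aff o κ (p i) = h i ∧ aff o κ (p j) = h j ∧ aff o κ (p k) = h k ∧ ∀ l, aff o κ (p l) ≤ h l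

/-- no four points are coplanar after lifting -/
def Generic : Prop := ∀ i j k l : Fin n, cr (p j - p i) (p k - p i) ≠ 0 → l ≠ i → l ≠ j → l ≠ k →
  cr (p j - p i) (p k - p i) * h l ≠ cr (p j - p l) (p k - p l) * h i +
    cr (p k - p l) (p i - p l) * h j + cr (p i - p l) (p j - p l) * h k

/-- `x` is on no line through two of the points -/
def Gen (x : ℂ) : Prop := ∀ i j, p i ≠ p j → cr (p i - x) (p j - x) ≠ 0

variable {p h}

/-- exchanging a vertex -/
theorem pivot {x a b d q : ℂ} (hx : In x a b d) (g1 : cr (a - x) (q - x) ≠ 0)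
    (g2 : cr (b - x) (q - x) ≠ 0) (g3 : cr (d - x) (q - x) ≠ 0) :
    In x a b q ∨ In x b d q ∨ In x d a q := by
  obtain ⟨h1, h2, h3⟩ := hx
  have hrel : cr (b - x) (d - x) * cr (a - x) (q - x) + cr (d - x) (a - x) * cr (b - x) (q - x) +
      cr (a - x) (b - x) * cr (d - x) (q - x) = 0 := by
    unfold cr; simp; ring
  have anti : ∀ u : ℂ, cr (q - x) (u - x) = - cr (u - x) (q - x) := by
    intro u; unfold cr; simp; ring
  rcases lt_or_gt_of_ne g1 with s1 | s1 <;> rcases lt_or_gt_of_ne g2 with s2 | s2 <;>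
    rcases lt_or_gt_of_ne g3 with s3 | s3
  · exfalso
    have := mul_neg_of_pos_of_neg h1 s1
    have := mul_neg_of_pos_of_neg h2 s2
    have := mul_neg_of_pos_of_neg h3 s3
    linarith
  · exact Or.inr (Or.inl ⟨s3, by rw [anti]; linarith, h1⟩)
  · exact Or.inl ⟨s2, by rw [anti]; linarith, h3⟩
  · exact Or.inl ⟨s2, by rw [anti]; linarith, h3⟩
  · exact Or.inr (Or.inr ⟨s1, by rw [anti]; linarith, h2⟩)
  · exact Or.inr (Or.inl ⟨s3, by rw [anti]; linarith, h1⟩)
  · exact Or.inr (Or.inr ⟨s1, by rw [anti]; linarith, h2⟩)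
  · exfalso
    have := mul_pos h1 s1
    have := mul_pos h2 s2
    have := mul_pos h3 s3
    linarith

/-- the value at `x` of the interpolation -/
noncomputable def vl (x a b d : ℂ) (ha hb hd : ℝ) : ℝ :=
  (cr (b - x) (d - x) * ha + cr (d - x) (a - x) * hb + cr (a - x) (b - x) * hd) /
    cr (b - a) (d - a)

theorem vl_aff {x a b d : ℂ} (hD : 0 < cr (b - a) (d - a)) (o : ℂ) (k : ℝ) :
    vl x a b d (aff o k a) (aff o k b) (aff o k d) = aff o k x := by
  unfold vl
  rw [← aff_bary, mul_div_cancel_left₀ _ hD.ne']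

theorem vl_lt {x a b q : ℂ} (hx : In x a b q) (o : ℂ) (k : ℝ) {hq : ℝ} (h : hq < aff o k q) :
    vl x a b q (aff o k a) (aff o k b) hq < aff o k x := by
  have hD := hx.pos
  have e := vl_aff (x := x) hD o k
  rw [← e]
  unfold vl
  apply div_lt_div_of_pos_right _ hD
  have := mul_lt_mul_of_pos_left h hx.2.2
  linarith

/-- **Existence** of a triangle of the triangulation around a generic point. -/
theorem exists_del {x : ℂ} (hp : Function.Injective p) (hgen : Gen p x) (i j k : Fin n) (hx : In x (p i) (p j) (p k)) :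
    ∃ i j k o κ, In x (p i) (p j) (p k) ∧ Del p h i j k o κ := by
  classical
  have hfin : (Finset.univ.filter fun t : Fin n × Fin n × Fin n =>
      In x (p t.1) (p t.2.1) (p t.2.2)).Nonempty := ⟨(i, j, k), by simp [hx]⟩
  obtain ⟨⟨i, j, k⟩, ht, hmin⟩ := Finset.exists_min_image _
    (fun t : Fin n × Fin n × Fin n => vl x (p t.1) (p t.2.1) (p t.2.2) (h t.1) (h t.2.1) (h t.2.2)) hfin
  rw [Finset.mem_filter] at ht
  have hx : In x (p i) (p j) (p k) := ht.2
  obtain ⟨o, κ, h1, h2, h3⟩ := exists_aff hx.pos.ne' (h i) (h j) (h k)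
  refine ⟨i, j, k, o, κ, hx, h1, h2, h3, fun l => ?_⟩
  by_contra hl
  push Not at hl
  have hv : vl x (p i) (p j) (p k) (h i) (h j) (h k) = aff o κ x := by
    rw [← h1, ← h2, ← h3, vl_aff hx.pos]
  have hne : ∀ m, aff o κ (p m) = h m → p m ≠ p l := by
    intro m hm hml
    rw [hp hml] at hm
    linarith
  rcases pivot (q := p l) hx (hgen _ _ (hne i h1)) (hgen _ _ (hne j h2)) (hgen _ _ (hne k h3)) with
    hp | hp | hp
  · have := hmin (i, j, l) (by simp [hp])
    simp only at this
    rw [hv] at this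
    have h4 := vl_lt hp o κ hl
    rw [h1, h2] at h4
    linarith
  · have := hmin (j, k, l) (by simp [hp])
    simp only at this
    rw [hv] at this
    have h4 := vl_lt hp o κ hl
    rw [h2, h3] at h4
    linarith
  · have := hmin (k, i, l) (by simp [hp])
    simp only at this
    rw [hv] at this
    have h4 := vl_lt hp o κ hl
    rw [h3, h1] at h4
    linarith

end Points

end Pool.Agent.Q208.DI
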