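import Pool.Agent.Q208.DI.Del1

/-!
# Regular triangulations: disjointness, generic heights, null sets
-/

set_option autoImplicit false

namespace Pool.Agent.Q208.DI

open MeasureTheory Set

theorem cr_lin (p q x : ℂ) : cr (p - x) (q - x) = cr p q + cr x (p - q) := by
  unfold cr; simp; ring

theorem cr_anti (p q : ℂ) : cr p q = - cr q p := by
  unfold cr; ring

/-- lines are null sets -/
theorem null_line {p q : ℂ} (hpq : p ≠ q) : volume {x : ℂ | cr (p - x) (q - x) = 0} = 0 := by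
  let L : ℂ →ₗ[ℝ] ℝ := (p - q).im • Complex.reLm - (p - q).re • Complex.imLm
  have hL : ∀ x, L x = cr x (p - q) := by
    intro x
    simp only [L, LinearMap.sub_apply, LinearMap.smul_apply, Complex.reLm_coe, Complex.imLm_coe,
      smul_eq_mul, cr]
    ring
  have hker : LinearMap.ker L ≠ ⊤ := by
    intro h
    rw [LinearMap.ker_eq_top] at h
    have h1 : L 1 = 0 := by rw [h]; rfl
    have h2 : L Complex.I = 0 := by rw [h]; rfl
    rw [hL] at h1 h2
    unfold cr at h1 h2
    simp at h1 h2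
    apply hpq
    apply Complex.ext
    · linarith
    · linarith
  have h0 : volume ((LinearMap.ker L : Submodule ℝ ℂ) : Set ℂ) = 0 :=
    Measure.addHaar_submodule volume _ hker
  have : {x : ℂ | cr (p - x) (q - x) = 0} = (fun x => x + (-p)) ⁻¹' (LinearMap.ker L : Set ℂ) := by
    ext x
    have e : cr (p - x) (q - x) = cr (x + -p) (p - q) := by unfold cr; simp; ring
    show cr (p - x) (q - x) = 0 ↔ x + (-p) ∈ LinearMap.ker L
    rw [LinearMap.mem_ker, hL, e]
  rw [this, measure_preimage_add_right, h0]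

theorem ae_gen {n : ℕ} (p : Fin n → ℂ) : ∀ᵐ x : ℂ, Gen p x := by
  unfold Gen
  rw [ae_all_iff]
  intro i
  rw [ae_all_iff]
  intro j
  by_cases hij : p i = p j
  · simp [hij]
  · have := null_line hij
    rw [ae_iff]
    refine measure_mono_null ?_ this
    intro x hx
    change ¬ (_ → _) at hx
    push Not at hx
    exact hx.2

/-- the open triangle -/
def Tr (a b d : ℂ) : Set ℂ := {x | In x a b d}

theorem isOpen_Tr (a b d : ℂ) : IsOpen (Tr a b d) := by
  have c : ∀ u v : ℂ, Continuous fun x : ℂ => cr (u - x) (v - x) := by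
    intro u v
    unfold cr
    have h1 : Continuous fun x : ℂ => x.re := Complex.continuous_re
    have h2 : Continuous fun x : ℂ => x.im := Complex.continuous_im
    fun_prop
  exact (isOpen_lt continuous_const (c b d)).inter
    ((isOpen_lt continuous_const (c d a)).inter (isOpen_lt continuous_const (c a b)))

/-- barycentric coordinates -/
theorem In.bary {x a b d : ℂ} (h : In x a b d) :
    x = (cr (b - x) (d - x) / cr (b - a) (d - a)) • a +
      (cr (d - x) (a - x) / cr (b - a) (d - a)) • b +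
      (cr (a - x) (b - x) / cr (b - a) (d - a)) • d := by
  have hD := h.pos
  have h1 : cr (b - a) (d - a) • x = cr (b - x) (d - x) • a + cr (d - x) (a - x) • b +
      cr (a - x) (b - x) • d := by
    apply Complex.ext
    · unfold cr; simp; ring
    · unfold cr; simp; ring
  have h2 : x = (cr (b - a) (d - a))⁻¹ • (cr (b - a) (d - a) • x) := by
    rw [smul_smul, inv_mul_cancel₀ hD.ne', one_smul]
  refine h2.trans ?_
  rw [h1]
  simp only [smul_add, smul_smul, div_eq_inv_mul]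

theorem Tr_subset_hull (a b d : ℂ) : Tr a b d ⊆ hull ![a, b, d] := by
  intro x hx
  have hD := hx.pos
  refine ⟨![cr (b - x) (d - x) / cr (b - a) (d - a), cr (d - x) (a - x) / cr (b - a) (d - a),
    cr (a - x) (b - x) / cr (b - a) (d - a)], ?_, ?_, ?_⟩
  · intro i
    fin_cases i
    · exact (div_pos hx.1 hD).le
    · exact (div_pos hx.2.1 hD).le
    · exact (div_pos hx.2.2 hD).le
  · rw [Fin.sum_univ_three]
    show cr (b - x) (d - x) / cr (b - a) (d - a) + cr (d - x) (a - x) / cr (b - a) (d - a) +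
      cr (a - x) (b - x) / cr (b - a) (d - a) = 1
    rw [← add_div, ← add_div, cr_sum, div_self hD.ne']
  · rw [Fin.sum_univ_three]
    exact hx.bary

theorem volume_Tr {a b d : ℂ} (hD : 0 < cr (b - a) (d - a)) :
    ENNReal.ofReal (cr (b - a) (d - a) / 2) ≤ volume (Tr a b d) := by
  have hne : a ≠ b ∧ b ≠ d ∧ d ≠ a := by
    refine ⟨?_, ?_, ?_⟩
    · rintro rfl; unfold cr at hD; simp at hD
    · rintro rfl; unfold cr at hD; simp at hD; linarith
    · rintro rfl; unfold cr at hD; simp at hD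
  have h1 : tri a (b - a) (d - b) ⊆ Tr a b d ∪ ({x : ℂ | cr (b - x) (d - x) = 0} ∪
      ({x : ℂ | cr (d - x) (a - x) = 0} ∪ {x : ℂ | cr (a - x) (b - x) = 0})) := by
    intro x hx
    rw [mem_tri] at hx
    obtain ⟨s, l, hl, hls, hs, rfl⟩ := hx
    set D := cr (b - a) (d - a) with hDd
    have e1 : cr (b - (a + s • (b - a) + l • (d - b))) (d - (a + s • (b - a) + l • (d - b))) =
        (1 - s) * D := by rw [hDd]; unfold cr; simp; ring
    have e2 : cr (d - (a + s • (b - a) + l • (d - b))) (a - (a + s • (b - a) + l • (d - b))) =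
        (s - l) * D := by rw [hDd]; unfold cr; simp; ring
    have e3 : cr (a - (a + s • (b - a) + l • (d - b))) (b - (a + s • (b - a) + l • (d - b))) =
        l * D := by rw [hDd]; unfold cr; simp; ring
    by_cases c1 : s = 1
    · right; left; show _ = _; rw [e1, c1]; simp
    by_cases c2 : s = l
    · right; right; left; show _ = _; rw [e2, c2]; simp
    by_cases c3 : l = 0
    · right; right; right; show _ = _; rw [e3, c3]; simp
    left
    refine ⟨?_, ?_, ?_⟩
    · rw [e1]; exact mul_pos (sub_pos.2 (lt_of_le_of_ne hs c1)) hD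
    · rw [e2]; exact mul_pos (sub_pos.2 (lt_of_le_of_ne hls (Ne.symm c2))) hD
    · rw [e3]; exact mul_pos (lt_of_le_of_ne hl (Ne.symm c3)) hD
  have h2 : volume (tri a (b - a) (d - b)) = ENNReal.ofReal (cr (b - a) (d - a) / 2) := by
    rw [volume_tri, volume_Sd, ← ENNReal.ofReal_mul (abs_nonneg _)]
    congr 1
    have : cr (b - a) (d - b) = cr (b - a) (d - a) := by unfold cr; simp; ring
    rw [this, abs_of_pos hD]; ring
  rw [← h2]
  refine (measure_mono h1).trans ?_
  refine (measure_union_le _ _).trans ?_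
  have h3 : volume ({x : ℂ | cr (b - x) (d - x) = 0} ∪
      ({x : ℂ | cr (d - x) (a - x) = 0} ∪ {x : ℂ | cr (a - x) (b - x) = 0})) = 0 := by
    rw [measure_union_null_iff, measure_union_null_iff]
    exact ⟨null_line hne.2.1, null_line hne.2.2, null_line hne.1⟩
  rw [h3, add_zero]

theorem In.dist_le {x a b d o : ℂ} (h : In x a b d) {R : ℝ} (ha : ‖a - o‖ ≤ R) (hb : ‖b - o‖ ≤ R)
    (hd : ‖d - o‖ ≤ R) : ‖x - o‖ ≤ R := by
  have hc : Convex ℝ (Metric.closedBall o R) := convex_closedBall _ _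
  obtain ⟨w, h1, h2, h3⟩ := Tr_subset_hull a b d h
  have := hc.sum_mem (t := Finset.univ) (fun i _ => h1 i) h2 (z := ![a, b, d]) (by
    intro i _
    rw [mem_closedBall_iff_norm]
    fin_cases i
    · exact ha
    · exact hb
    · exact hd)
  rw [← h3, mem_closedBall_iff_norm] at this
  exact this

section Points

variable {n : ℕ} {p : Fin n → ℂ} {h : Fin n → ℝ}

theorem aff_le {x : ℂ} {i j k : Fin n} {o o' : ℂ} {κ κ' : ℝ} (hx : In x (p i) (p j) (p k))
    (hd : Del p h i j k o κ) (hd' : ∀ l, aff o' κ' (p l) ≤ h l) : aff o' κ' x ≤ aff o κ x := by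
  have hD := hx.pos
  have e1 := aff_bary o κ x (p i) (p j) (p k)
  have e2 := aff_bary o' κ' x (p i) (p j) (p k)
  rw [hd.1, hd.2.1, hd.2.2.1] at e1
  have m1 := mul_le_mul_of_nonneg_left (hd' i) hx.1.le
  have m2 := mul_le_mul_of_nonneg_left (hd' j) hx.2.1.le
  have m3 := mul_le_mul_of_nonneg_left (hd' k) hx.2.2.le
  have : cr (p j - p i) (p k - p i) * aff o' κ' x ≤ cr (p j - p i) (p k - p i) * aff o κ x := by
    rw [e1, e2]; linarith
  exact le_of_mul_le_mul_left this hD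

/-- the vertices of a second triangle around the same point lie on the first face -/
theorem vert_on {x : ℂ} {i j k i' j' k' : Fin n} {o o' : ℂ} {κ κ' : ℝ}
    (hx : In x (p i) (p j) (p k)) (hd : Del p h i j k o κ)
    (hx' : In x (p i') (p j') (p k')) (hd' : Del p h i' j' k' o' κ') :
    aff o κ (p i') = h i' ∧ aff o κ (p j') = h j' ∧ aff o κ (p k') = h k' := by
  have heq : aff o κ x = aff o' κ' x :=
    le_antisymm (aff_le hx' hd' hd.2.2.2) (aff_le hx hd hd'.2.2.2)
  have e1 := aff_bary o κ x (p i') (p j') (p k')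
  have e2 := aff_bary o' κ' x (p i') (p j') (p k')
  rw [hd'.1, hd'.2.1, hd'.2.2.1] at e2
  rw [heq, e2] at e1
  have m1 := mul_nonneg hx'.1.le (sub_nonneg.2 (hd.2.2.2 i'))
  have m2 := mul_nonneg hx'.2.1.le (sub_nonneg.2 (hd.2.2.2 j'))
  have m3 := mul_nonneg hx'.2.2.le (sub_nonneg.2 (hd.2.2.2 k'))
  have s : cr (p j' - x) (p k' - x) * (h i' - aff o κ (p i')) +
      cr (p k' - x) (p i' - x) * (h j' - aff o κ (p j')) +
      cr (p i' - x) (p j' - x) * (h k' - aff o κ (p k')) = 0 := by linarith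
  refine ⟨?_, ?_, ?_⟩
  · have : cr (p j' - x) (p k' - x) * (h i' - aff o κ (p i')) = 0 := by linarith
    rcases mul_eq_zero.1 this with h0 | h0
    · exact absurd h0 hx'.1.ne'
    · linarith
  · have : cr (p k' - x) (p i' - x) * (h j' - aff o κ (p j')) = 0 := by linarith
    rcases mul_eq_zero.1 this with h0 | h0
    · exact absurd h0 hx'.2.1.ne'
    · linarith
  · have : cr (p i' - x) (p j' - x) * (h k' - aff o κ (p k')) = 0 := by linarith
    rcases mul_eq_zero.1 this with h0 | h0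
    · exact absurd h0 hx'.2.2.ne'
    · linarith

theorem mem_of_on (hg : Generic p h) {i j k l : Fin n} {o : ℂ} {κ : ℝ} (hd : Del p h i j k o κ)
    (hD : 0 < cr (p j - p i) (p k - p i)) (hl : aff o κ (p l) = h l) : l = i ∨ l = j ∨ l = k := by
  by_contra hcon
  push Not at hcon
  have := aff_bary o κ (p l) (p i) (p j) (p k)
  rw [hl, hd.1, hd.2.1, hd.2.2.1] at this
  exact hg i j k l hD.ne' hcon.1 hcon.2.1 hcon.2.2 this

/-- the index set of the triangulation -/
def Idx (p : Fin n → ℂ) (h : Fin n → ℝ) : Set (Fin n × Fin n × Fin n) :=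
  {t | t.1 < t.2.1 ∧ t.1 < t.2.2 ∧ 0 < cr (p t.2.1 - p t.1) (p t.2.2 - p t.1) ∧
    ∃ o κ, Del p h t.1 t.2.1 t.2.2 o κ}

theorem Idx_disjoint (hg : Generic p h) {t t' : Fin n × Fin n × Fin n} (ht : t ∈ Idx p h)
    (ht' : t' ∈ Idx p h) {x : ℂ} (hx : x ∈ Tr (p t.1) (p t.2.1) (p t.2.2))
    (hx' : x ∈ Tr (p t'.1) (p t'.2.1) (p t'.2.2)) : t = t' := by
  obtain ⟨i, j, k⟩ := t
  obtain ⟨i', j', k'⟩ := t'
  obtain ⟨h1, h2, h3, o, κ, h4⟩ := ht
  obtain ⟨h1', h2', h3', o', κ', h4'⟩ := ht'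
  simp only at *
  have hv := vert_on hx h4 hx' h4'
  have hv' := vert_on hx' h4' hx h4
  have a1 := mem_of_on hg h4 h3 hv.1
  have a2 := mem_of_on hg h4 h3 hv.2.1
  have a3 := mem_of_on hg h4 h3 hv.2.2
  have b1 := mem_of_on hg h4' h3' hv'.1
  have b2 := mem_of_on hg h4' h3' hv'.2.1
  have b3 := mem_of_on hg h4' h3' hv'.2.2
  have hjk : j ≠ k := by
    rintro rfl
    unfold cr at h3; linarith
  have hjk' : j' ≠ k' := by
    rintro rfl
    unfold cr at h3'; linarith
  have hi : i = i' := by omega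
  subst hi
  have hcase : (j = j' ∧ k = k') ∨ (j = k' ∧ k = j') := by omega
  rcases hcase with ⟨rfl, rfl⟩ | ⟨rfl, rfl⟩
  · rfl
  · exfalso
    rw [cr_anti] at h3'
    linarith

/-- normalizing the order of the vertices -/
theorem exists_idx {x : ℂ} (hp : Function.Injective p) (hgen : Gen p x) (i j k : Fin n)
    (hx : In x (p i) (p j) (p k)) :
    ∃ t ∈ Idx p h, x ∈ Tr (p t.1) (p t.2.1) (p t.2.2) := by
  obtain ⟨i, j, k, o, κ, hx, hd⟩ := exists_del (h := h) hp hgen i j k hx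
  have hD := hx.pos
  have hD2 := hx.rot.pos
  have hD3 := hx.rot.rot.pos
  have hij : i ≠ j := by rintro rfl; unfold cr at hD; simp at hD
  have hik : i ≠ k := by rintro rfl; unfold cr at hD; simp at hD
  have hjk : j ≠ k := by rintro rfl; unfold cr at hD; simp at hD; linarith
  have hcase : (i < j ∧ i < k) ∨ (j < k ∧ j < i) ∨ (k < i ∧ k < j) := by omega
  rcases hcase with h1 | h1 | h1
  · exact ⟨(i, j, k), ⟨h1.1, h1.2, hD, o, κ, hd⟩, hx⟩
  · exact ⟨(j, k, i), ⟨h1.1, h1.2, hD2, o, κ, hd.2.1, hd.2.2.1, hd.1, hd.2.2.2⟩, hx.rot⟩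
  · exact ⟨(k, i, j), ⟨h1.1, h1.2, hD3, o, κ, hd.2.2.1, hd.1, hd.2.1, hd.2.2.2⟩, hx.rot.rot⟩

open Polynomial in
/-- generic heights close to given ones -/
theorem exists_generic (p : Fin n → ℂ) (h0 : Fin n → ℝ) {δ : ℝ} (hδ : 0 < δ) :
    ∃ h : Fin n → ℝ, (∀ l, h0 l ≤ h l ∧ h l ≤ h0 l + δ) ∧ Generic p h := by
  classical
  let Q : Fin n × Fin n × Fin n × Fin n → ℝ[X] := fun t =>
    C (cr (p t.2.1 - p t.1) (p t.2.2.1 - p t.1)) * (C (h0 t.2.2.2) + X ^ ((t.2.2.2 : ℕ) + 1)) -
    (C (cr (p t.2.1 - p t.2.2.2) (p t.2.2.1 - p t.2.2.2)) * (C (h0 t.1) + X ^ ((t.1 : ℕ) + 1)) +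
    C (cr (p t.2.2.1 - p t.2.2.2) (p t.1 - p t.2.2.2)) * (C (h0 t.2.1) + X ^ ((t.2.1 : ℕ) + 1)) +
    C (cr (p t.1 - p t.2.2.2) (p t.2.1 - p t.2.2.2)) * (C (h0 t.2.2.1) + X ^ ((t.2.2.1 : ℕ) + 1)))
  have hfin : (⋃ t : {t : Fin n × Fin n × Fin n × Fin n // Q t ≠ 0},
      {s : ℝ | (Q t.1).IsRoot s}).Finite :=
    Set.finite_iUnion fun t => Polynomial.finite_setOfPred_isRoot t.2
  have hinf : (Ioo (0 : ℝ) (min δ 1)).Infinite := Ioo_infinite (lt_min hδ one_pos)
  obtain ⟨s, hs, hs2⟩ := (hinf.sdiff hfin).nonempty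
  have hs1 : s ≤ 1 := (hs.2.le).trans (min_le_right _ _)
  have hsδ : s ≤ δ := (hs.2.le).trans (min_le_left _ _)
  refine ⟨fun l => h0 l + s ^ ((l : ℕ) + 1), fun l => ⟨?_, ?_⟩, ?_⟩
  · have := pow_pos hs.1 ((l : ℕ) + 1)
    linarith
  · have : s ^ ((l : ℕ) + 1) ≤ s ^ 1 := pow_le_pow_of_le_one hs.1.le hs1 (by omega)
    rw [pow_one] at this
    linarith
  · intro i j k l hD hli hlj hlk heq
    have hQ : Q (i, j, k, l) ≠ 0 := by
      intro h
      have h1 := congrArg (fun q => q.coeff ((l : ℕ) + 1)) h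
      have e1 : (i : ℕ) ≠ l := fun h => hli (Fin.ext h.symm)
      have e2 : (j : ℕ) ≠ l := fun h => hlj (Fin.ext h.symm)
      have e3 : (k : ℕ) ≠ l := fun h => hlk (Fin.ext h.symm)
      simp [Q, coeff_X_pow, e1.symm, e2.symm, e3.symm] at h1
      exact hD h1
    apply hs2
    refine mem_iUnion.2 ⟨⟨(i, j, k, l), hQ⟩, ?_⟩
    show (Q (i, j, k, l)).eval s = 0
    simp only [Q, eval_sub, eval_mul, eval_C, eval_add, eval_pow, eval_X]
    rw [heq]; ring

end Points

end Pool.Agent.Q208.DI
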