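import Pool.Agent.Q208.DI.Low3

/-!
# The triangular lattice: the lower bound
-/

set_option autoImplicit false

namespace Pool.Agent.Q208.DI

open MeasureTheory Set Metric

/-- the cells -/
noncomputable def cl (i j : ℕ) : Bool → Set ℂ
  | true => cell i j 1
  | false => cell (i + 1) (j + 1) (-1)

/-- the cost of a boundary row -/
noncomputable def ec (N i : ℕ) : ENNReal := if i = 0 then 6 * ENNReal.ofReal (√3 / 8) else
  if i + 1 = N then 6 * ENNReal.ofReal (√3 / 8) else 0

theorem cl_bound (N i j : ℕ) (hi : i < N) (hj : j < N) (τ : Bool) :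
    ∫⁻ x in cl i j τ, ENNReal.ofReal (1 - infDist x (Om N)ᶜ) ≤
      6 * ENNReal.ofReal (√3 / 8 * (1 - cst)) + (ec N i + ec N j) := by
  have hg : ∀ x, 1 - infDist x (Om N)ᶜ ≤ 1 := fun x => by
    have := infDist_nonneg (x := x) (s := (Om N)ᶜ); linarith
  have hb : ∫⁻ x in cl i j τ, ENNReal.ofReal (1 - infDist x (Om N)ᶜ) ≤
      6 * ENNReal.ofReal (√3 / 8) := by
    cases τ
    · exact cell_bdry (by norm_num) _ hg
    · exact cell_bdry (by norm_num) _ hg
  by_cases h : i = 0 ∨ i + 1 = N ∨ j = 0 ∨ j + 1 = N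
  · refine hb.trans ?_
    have : 6 * ENNReal.ofReal (√3 / 8) ≤ ec N i + ec N j := by
      rcases h with h | h | h | h
      · exact le_add_right (by unfold ec; rw [if_pos h])
      · refine le_add_right ?_
        unfold ec
        split_ifs
        · exact le_rfl
        · exact le_rfl
      · exact le_add_left (by unfold ec; rw [if_pos h])
      · refine le_add_left ?_
        unfold ec
        split_ifs
        · exact le_rfl
        · exact le_rfl
    exact this.trans le_add_self
  · push Not at h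
    obtain ⟨g1, g2, g3, g4⟩ := h
    refine le_trans ?_ le_self_add
    have c1 : (1 : ℝ) ≤ i := by exact_mod_cast Nat.one_le_iff_ne_zero.2 g1
    have c2 : (i : ℝ) + 2 ≤ N := by exact_mod_cast (by omega : i + 2 ≤ N)
    have c3 : (1 : ℝ) ≤ j := by exact_mod_cast Nat.one_le_iff_ne_zero.2 g3
    have c4 : (j : ℝ) + 2 ≤ N := by exact_mod_cast (by omega : j + 2 ≤ N)
    cases τ
    · refine cell_inner (by norm_num) _ fun a b hab x hx => ?_
      obtain ⟨s, l, h0, h1, h2, hx'⟩ := mem_pc hx
      have b1 := ca_bd a b h0 h1 h2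
      have b2 := cb_bd a b h0 h1 h2
      have e1 : pp x = (i : ℝ) + 1 - (cu a + ca a b s l) := by
        rw [hx', pp_lp]; push_cast; ring
      have e2 : qq x = (j : ℝ) + 1 - (cv a + cb a b s l) := by
        rw [hx', qq_lp]; push_cast; ring
      have := Om_inner (N := N) (by norm_num) hab hx (by rw [e1]; linarith) (by rw [e1]; linarith)
        (by rw [e2]; linarith) (by rw [e2]; linarith)
      linarith
    · refine cell_inner (by norm_num) _ fun a b hab x hx => ?_
      obtain ⟨s, l, h0, h1, h2, hx'⟩ := mem_pc hx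
      have b1 := ca_bd a b h0 h1 h2
      have b2 := cb_bd a b h0 h1 h2
      have e1 : pp x = (i : ℝ) + (cu a + ca a b s l) := by
        rw [hx', pp_lp]; push_cast; ring
      have e2 : qq x = (j : ℝ) + (cv a + cb a b s l) := by
        rw [hx', qq_lp]; push_cast; ring
      have := Om_inner (N := N) (by norm_num) hab hx (by rw [e1]; linarith) (by rw [e1]; linarith)
        (by rw [e2]; linarith) (by rw [e2]; linarith)
      linarith

theorem ec_sum (N : ℕ) : ∑ i : Fin N, ec N i ≤ 12 * ENNReal.ofReal (√3 / 8) := by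
  rw [Fin.sum_univ_eq_sum_range (fun i => ec N i) N]
  have h1 : ∀ i ∈ Finset.range N, ec N i ≤ (if i = 0 then 6 * ENNReal.ofReal (√3 / 8) else 0) +
      (if i = N - 1 then 6 * ENNReal.ofReal (√3 / 8) else 0) := by
    intro i hi
    unfold ec
    by_cases h : i = 0
    · rw [if_pos h, if_pos h]; exact le_self_add
    · rw [if_neg h, if_neg h]
      by_cases h2 : i + 1 = N
      · rw [if_pos h2, if_pos (by omega)]; exact le_add_self
      · rw [if_neg h2]; exact zero_le
  refine (Finset.sum_le_sum h1).trans ?_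
  rw [Finset.sum_add_distrib, Finset.sum_ite_eq', Finset.sum_ite_eq']
  have h2 : ∀ P : Prop, ∀ _ : Decidable P, (if P then 6 * ENNReal.ofReal (√3 / 8) else 0) ≤
      6 * ENNReal.ofReal (√3 / 8) := by
    intro P _
    split_ifs
    · exact le_rfl
    · exact zero_le
  refine (add_le_add (h2 _ _) (h2 _ _)).trans (le_of_eq ?_)
  ring

theorem Om_int (N : ℕ) : ∫⁻ x in Om N, ENNReal.ofReal (1 - infDist x (Om N)ᶜ) ≤
    12 * N ^ 2 * ENNReal.ofReal (√3 / 8 * (1 - cst)) + 48 * N * ENNReal.ofReal (√3 / 8) := by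
  have hsub : Om N ⊆ ⋃ t : Fin N × Fin N × Bool, cl t.1 t.2.1 t.2.2 := by
    intro x hx
    obtain ⟨i, j, hi, hj, h⟩ := Om_cover hx
    rcases h with h | h
    · exact mem_iUnion.2 ⟨(⟨i, hi⟩, ⟨j, hj⟩, true), h⟩
    · exact mem_iUnion.2 ⟨(⟨i, hi⟩, ⟨j, hj⟩, false), h⟩
  calc ∫⁻ x in Om N, ENNReal.ofReal (1 - infDist x (Om N)ᶜ) ≤ _ := lintegral_mono_set hsub
    _ ≤ _ := lintegral_iUnion_le _ _
    _ = ∑ t : Fin N × Fin N × Bool, _ := tsum_fintype _
    _ ≤ ∑ t : Fin N × Fin N × Bool, (6 * ENNReal.ofReal (√3 / 8 * (1 - cst)) +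
        (ec N t.1 + ec N t.2.1)) :=
        Finset.sum_le_sum fun t _ => cl_bound N t.1 t.2.1 t.1.2 t.2.1.2 t.2.2
    _ = 12 * N ^ 2 * ENNReal.ofReal (√3 / 8 * (1 - cst)) + 4 * N * ∑ i : Fin N, ec N i := by
        rw [Fintype.sum_prod_type]
        simp only [Fintype.sum_prod_type, Finset.sum_add_distrib,
          Finset.sum_const, Finset.card_univ, Fintype.card_fin, nsmul_eq_mul,
          Fintype.card_prod, Fintype.card_bool, ← Finset.mul_sum]
        push_cast
        ring
    _ ≤ 12 * N ^ 2 * ENNReal.ofReal (√3 / 8 * (1 - cst)) +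
        4 * N * (12 * ENNReal.ofReal (√3 / 8)) := by
        gcongr
        exact ec_sum N
    _ = _ := by ring

theorem volume_Om_real (N : ℕ) : (volume (Om N)).toReal = 3 * √3 / 2 * N ^ 2 := by
  rw [volume_Om, ENNReal.toReal_ofReal (by positivity)]

theorem Om_real (N : ℕ) (hN : 0 < N) :
    cst - 4 / N ≤ ⨍ x in Om N, infDist x (Om N)ᶜ := by
  have h3 := s3pos
  have hN' : (0 : ℝ) < N := by exact_mod_cast hN
  have hc := cst_lt
  have hV : (volume (Om N)).toReal = 3 * √3 / 2 * N ^ 2 := volume_Om_real N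
  have hfin : volume (Om N) ≠ ⊤ := by rw [volume_Om]; exact ENNReal.ofReal_ne_top
  have hcont : Continuous fun x : ℂ => infDist x (Om N)ᶜ := continuous_infDist_pt _
  have hint : IntegrableOn (fun x : ℂ => infDist x (Om N)ᶜ) (Om N) := by
    refine Measure.integrableOn_of_bounded hfin hcont.aestronglyMeasurable (M := 1) ?_
    refine Filter.Eventually.of_forall fun x => ?_
    rw [Real.norm_of_nonneg infDist_nonneg]
    exact Om_le_one N x
  have h1 : ∫ x in Om N, (1 - infDist x (Om N)ᶜ) ≤
      12 * N ^ 2 * (√3 / 8 * (1 - cst)) + 48 * N * (√3 / 8) := by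
    rw [integral_eq_lintegral_of_nonneg_ae]
    · have h := Om_int N
      have h2 := ENNReal.toReal_mono (by
        refine ENNReal.add_ne_top.2 ⟨?_, ?_⟩
        · exact ENNReal.mul_ne_top (by
            exact ENNReal.mul_ne_top (by norm_num) (by
              exact ENNReal.pow_ne_top (ENNReal.natCast_ne_top N))) ENNReal.ofReal_ne_top
        · exact ENNReal.mul_ne_top (ENNReal.mul_ne_top (by norm_num) (ENNReal.natCast_ne_top N))
            ENNReal.ofReal_ne_top) h
      refine h2.trans (le_of_eq ?_)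
      rw [ENNReal.toReal_add]
      · simp only [ENNReal.toReal_mul, ENNReal.toReal_pow, ENNReal.toReal_natCast,
          ENNReal.toReal_ofNat]
        rw [ENNReal.toReal_ofReal (by
          have : 0 < 1 - cst := by linarith
          positivity), ENNReal.toReal_ofReal (by positivity)]
      · exact ENNReal.mul_ne_top (by
            exact ENNReal.mul_ne_top (by norm_num) (by
              exact ENNReal.pow_ne_top (ENNReal.natCast_ne_top N))) ENNReal.ofReal_ne_top
      · exact ENNReal.mul_ne_top (ENNReal.mul_ne_top (by norm_num) (ENNReal.natCast_ne_top N))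
            ENNReal.ofReal_ne_top
    · refine Filter.Eventually.of_forall fun x => ?_
      have := Om_le_one N x
      simp only [Pi.zero_apply]
      linarith
    · exact (continuous_const.sub hcont).aestronglyMeasurable
  have hone : IntegrableOn (fun _ : ℂ => (1 : ℝ)) (Om N) := by
    exact integrableOn_const hfin
  rw [integral_sub hone hint] at h1
  have h2 : ∫ _ in Om N, (1 : ℝ) = 3 * √3 / 2 * N ^ 2 := by
    rw [setIntegral_const, measureReal_def, hV]; simp
  rw [h2] at h1
  rw [setAverage_eq, measureReal_def, hV, smul_eq_mul, inv_mul_eq_div, le_div_iff₀ (by positivity)]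
  have e : (cst - 4 / N) * (3 * √3 / 2 * N ^ 2) =
      3 * √3 / 2 * N ^ 2 - (12 * N ^ 2 * (√3 / 8 * (1 - cst)) + 48 * N * (√3 / 8)) := by
    field_simp
    ring
  rw [e]
  linarith

end Pool.Agent.Q208.DI
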