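import Pool.Agent.Q208.DI.Up
import Pool.Agent.Q208.DI.Low4

/-!
# The supremum of mean distance over inradius
-/

set_option autoImplicit false

namespace Pool.Agent.Q208.DI

open MeasureTheory Set Metric

theorem infDist_frontier {Ω : Set ℂ} (ho : IsOpen Ω) (hne : (Ωᶜ).Nonempty) {x : ℂ} (hx : x ∈ Ω) :
    infDist x (frontier Ω) = infDist x Ωᶜ := by
  obtain ⟨y, hy, hxy⟩ := ho.isClosed_compl.exists_infDist_eq_dist hne x
  have hpos : 0 < dist x y := dist_pos.2 (by rintro rfl; exact hy hx)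
  have hball : ball x (dist x y) ⊆ Ω := by
    intro z hz
    by_contra hzΩ
    have h1 : infDist x Ωᶜ ≤ dist x z := infDist_le_dist_of_mem hzΩ
    rw [mem_ball'] at hz
    linarith
  have hfr : y ∈ frontier Ω := by
    rw [ho.frontier_eq]
    refine ⟨closure_mono hball ?_, hy⟩
    rw [closure_ball x hpos.ne', mem_closedBall']
  have hsub : frontier Ω ⊆ Ωᶜ := by
    rw [ho.frontier_eq]
    exact fun z hz => hz.2
  refine le_antisymm ?_ (infDist_le_infDist_of_subset hsub ⟨y, hfr⟩)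
  rw [hxy]
  exact infDist_le_dist_of_mem hfr

/-- bounded nonempty open sets satisfy the standing hypotheses -/
theorem exists_hyp {Ω : Set ℂ} (ho : IsOpen Ω) (hb : Bornology.IsBounded Ω) (hne : Ω.Nonempty) :
    ∃ M0, Hyp Ω (sSup ((fun x => infDist x (frontier Ω)) '' Ω)) M0 := by
  obtain ⟨M, hM⟩ := hb.subset_ball 0
  set M0 := max M 1 with hM0
  have hsub : Ω ⊆ ball 0 M0 := hM.trans (ball_subset_ball (le_max_left _ _))
  have hM0pos : 0 < M0 := lt_of_lt_of_le one_pos (le_max_right _ _)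
  have hcne : (Ωᶜ).Nonempty := by
    refine ⟨(M0 : ℂ), fun h => ?_⟩
    have := hsub h
    rw [mem_ball_zero_iff, Complex.norm_real, Real.norm_of_nonneg hM0pos.le] at this
    exact lt_irrefl _ this
  have himg : (fun x => infDist x (frontier Ω)) '' Ω = (fun x => infDist x Ωᶜ) '' Ω :=
    image_congr fun x hx => infDist_frontier ho hcne hx
  have hbdd : BddAbove ((fun x => infDist x Ωᶜ) '' Ω) := by
    refine ⟨M0 + M0, ?_⟩
    rintro _ ⟨x, hx, rfl⟩
    have hx' := hsub hx
    rw [mem_ball_zero_iff] at hx'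
    have h1 : (M0 : ℂ) ∈ Ωᶜ := by
      intro h
      have := hsub h
      rw [mem_ball_zero_iff, Complex.norm_real, Real.norm_of_nonneg hM0pos.le] at this
      exact lt_irrefl _ this
    refine (infDist_le_dist_of_mem h1).trans ?_
    rw [dist_eq_norm]
    refine (norm_sub_le _ _).trans ?_
    rw [Complex.norm_real, Real.norm_of_nonneg hM0pos.le]
    linarith
  rw [himg]
  refine ⟨M0, ho, ?_, hM0pos, hsub, ?_⟩
  · obtain ⟨x, hx⟩ := hne
    have h1 : 0 < infDist x Ωᶜ := by
      rw [← ho.isClosed_compl.notMem_iff_infDist_pos hcne]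
      exact fun h => h hx
    exact lt_of_lt_of_le h1 (le_csSup hbdd ⟨x, hx, rfl⟩)
  · intro x
    by_cases hx : x ∈ Ω
    · exact le_csSup hbdd ⟨x, hx, rfl⟩
    · rw [infDist_zero_of_mem hx]
      obtain ⟨y, hy⟩ := hne
      exact infDist_nonneg.trans (le_csSup hbdd ⟨y, hy, rfl⟩)

theorem integral_frontier {Ω : Set ℂ} (ho : IsOpen Ω) (hne : (Ωᶜ).Nonempty) :
    ∫ x in Ω, infDist x (frontier Ω) = ∫ x in Ω, infDist x Ωᶜ :=
  setIntegral_congr_fun ho.measurableSet fun _ hx => infDist_frontier ho hne hx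

theorem upper_bound {Ω : Set ℂ} (ho : IsOpen Ω) (hb : Bornology.IsBounded Ω) (hne : Ω.Nonempty) :
    (⨍ x in Ω, infDist x (frontier Ω)) / sSup ((fun x => infDist x (frontier Ω)) '' Ω) ≤ cst := by
  obtain ⟨M0, H⟩ := exists_hyp ho hb hne
  set ρ := sSup ((fun x => infDist x (frontier Ω)) '' Ω) with hρ
  have h1 := H.upper
  rw [div_le_iff₀ H.pos, setAverage_eq, smul_eq_mul, integral_frontier ho H.ne]
  have hV : 0 < volume.real Ω := by
    rw [measureReal_def]
    exact ENNReal.toReal_pos (ho.measure_pos volume hne).ne' H.vol_lt.ne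
  rw [inv_mul_eq_div, div_le_iff₀ hV]
  exact h1

theorem lower_bound (N : ℕ) (hN : 0 < N) : IsOpen (Om N) ∧ Bornology.IsBounded (Om N) ∧
    (Om N).Nonempty ∧ cst - 4 / N ≤ (⨍ x in Om N, infDist x (frontier (Om N))) /
      sSup ((fun x => infDist x (frontier (Om N))) '' Om N) := by
  have hne : (Om N).Nonempty := by
    by_contra h
    rw [not_nonempty_iff_eq_empty] at h
    have h1 := volume_Om_real N
    rw [h] at h1
    have := s3pos
    have hN' : (0 : ℝ) < N := by exact_mod_cast hN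
    have : (0 : ℝ) < 3 * √3 / 2 * N ^ 2 := by positivity
    simp at h1
    omega
  have hb : Bornology.IsBounded (Om N) := isBounded_ball.subset (Om_sub_ball N)
  obtain ⟨M0, H⟩ := exists_hyp (isOpen_Om N) hb hne
  refine ⟨isOpen_Om N, hb, hne, ?_⟩
  set ρ := sSup ((fun x => infDist x (frontier (Om N))) '' Om N) with hρ
  have hρ1 : ρ ≤ 1 := by
    rw [hρ]
    refine csSup_le (hne.image _) ?_
    rintro _ ⟨x, hx, rfl⟩
    simp only
    rw [infDist_frontier (isOpen_Om N) H.ne hx]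
    exact Om_le_one N x
  have h1 := Om_real N hN
  have h2 : ⨍ x in Om N, infDist x (frontier (Om N)) = ⨍ x in Om N, infDist x (Om N)ᶜ := by
    rw [setAverage_eq, setAverage_eq, integral_frontier (isOpen_Om N) H.ne]
  have h3 : 0 ≤ ⨍ x in Om N, infDist x (Om N)ᶜ := by
    rw [setAverage_eq]
    exact smul_nonneg (by positivity) (integral_nonneg fun _ => infDist_nonneg)
  rw [h2, le_div_iff₀ H.pos]
  by_cases h4 : 0 ≤ cst - 4 / (N : ℝ)
  · calc (cst - 4 / (N : ℝ)) * ρ ≤ (cst - 4 / (N : ℝ)) * 1 := by gcongr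
      _ ≤ _ := by rw [mul_one]; exact h1
  · push Not at h4
    have := mul_neg_of_neg_of_pos h4 H.pos
    linarith

/-- **Main theorem** -/
theorem main : IsLUB {t : ℝ | ∃ Ω : Set ℂ, IsOpen Ω ∧ Bornology.IsBounded Ω ∧ Ω.Nonempty ∧
    t = (⨍ x in Ω, infDist x (frontier Ω)) / sSup ((fun x => infDist x (frontier Ω)) '' Ω)}
    (1 / 3 + Real.log 3 / 4) := by
  change IsLUB _ cst
  constructor
  · rintro _ ⟨Ω, h1, h2, h3, rfl⟩
    exact upper_bound h1 h2 h3
  · intro b hb
    have key : ∀ N : ℕ, 0 < N → cst - 4 / N ≤ b := by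
      intro N hN
      obtain ⟨h1, h2, h3, h4⟩ := lower_bound N hN
      exact h4.trans (hb ⟨Om N, h1, h2, h3, rfl⟩)
    by_contra hcon
    push Not at hcon
    obtain ⟨N, hN⟩ := exists_nat_gt (4 / (cst - b))
    have hgap : 0 < cst - b := by linarith
    have hN0 : (0 : ℝ) < N := lt_of_le_of_lt (by positivity) hN
    have h1 := key N (by exact_mod_cast hN0)
    rw [div_lt_iff₀ hgap] at hN
    have h2 : 4 / (N : ℝ) < cst - b := by
      rw [div_lt_iff₀ hN0]; linarith
    linarith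

end Pool.Agent.Q208.DI
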