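import Pool.Agent.Q208.DI.Tri2

/-!
# The triangular lattice: one cell
-/

set_option autoImplicit false

namespace Pool.Agent.Q208.DI

open MeasureTheory Set Metric

/-- lattice coordinates -/
noncomputable def lp (p q : ℝ) : ℂ := ⟨√3 * (p + q / 2), 3 / 2 * q⟩

theorem s3sq : (√3 : ℝ) * √3 = 3 := Real.mul_self_sqrt (by norm_num)

theorem s3pos : (0 : ℝ) < √3 := Real.sqrt_pos.2 (by norm_num)

theorem lp_sub (p q p' q' : ℝ) : lp p q - lp p' q' = lp (p - p') (q - q') := by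
  unfold lp
  apply Complex.ext
  · simp; ring
  · simp; ring

theorem lp_add (p q p' q' : ℝ) : lp p q + lp p' q' = lp (p + p') (q + q') := by
  unfold lp
  apply Complex.ext
  · simp; ring
  · simp; ring

theorem smul_lp (s p q : ℝ) : s • lp p q = lp (s * p) (s * q) := by
  unfold lp
  apply Complex.ext
  · simp; ring
  · simp; ring

theorem nsq_lp (p q : ℝ) : ‖lp p q‖ ^ 2 = 3 * (p ^ 2 + p * q + q ^ 2) := by
  rw [norm_sq_eq]
  unfold dt lp
  simp only
  linear_combination (p + q / 2) ^ 2 * s3sq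

theorem cr_lp (p q p' q' : ℝ) : cr (lp p q) (lp p' q') = 3 * √3 / 2 * (p * q' - q * p') := by
  unfold cr lp
  simp only
  ring

theorem dt_lp (p q p' q' : ℝ) :
    dt (lp p q) (lp p' q') = 3 / 2 * (2 * p * p' + p * q' + q * p' + 2 * q * q') := by
  unfold dt lp
  simp only
  linear_combination (p + q / 2) * (p' + q' / 2) * s3sq

theorem lp_surj (y : ℂ) : lp (y.re / √3 - y.im / 3) (2 / 3 * y.im) = y := by
  unfold lp
  have := s3pos
  apply Complex.ext
  · simp only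
    field_simp
    ring
  · simp only
    ring

theorem mid_lp (p q p' q' : ℝ) : mid (lp p q) (lp p' q') = lp ((p + p') / 2) ((q + q') / 2) := by
  unfold mid
  rw [lp_add, smul_lp]
  congr 1 <;> ring

/-- coordinates of the vertices -/
def cu : Fin 3 → ℤ := ![0, 1, 0]
/-- coordinates of the vertices -/
def cv : Fin 3 → ℤ := ![0, 0, 1]

/-- the vertices of a lattice triangle -/
noncomputable def VV (u v σ : ℤ) (i : Fin 3) : ℂ := lp (u + σ * cu i) (v + σ * cv i)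

/-- its centre -/
noncomputable def PP (u v σ : ℤ) : ℂ := lp (u + σ / 3) (v + σ / 3)

theorem PP_eq (u v σ : ℤ) : PP u v σ = ∑ l : Fin 3, (1 / 3 : ℝ) • VV u v σ l := by
  rw [Fin.sum_univ_three]
  unfold VV
  simp only [smul_lp, lp_add]
  unfold PP cu cv
  simp
  congr 1 <;> ring

theorem sq_ge (m : ℤ) : (m : ℝ) ≤ (m : ℝ) ^ 2 ∧ -(m : ℝ) ≤ (m : ℝ) ^ 2 := by
  have h1 : m ≤ m ^ 2 := by
    rcases le_or_gt m 0 with h | h
    · nlinarith
    · nlinarith
  have h2 : -m ≤ m ^ 2 := by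
    rcases le_or_gt 0 m with h | h
    · nlinarith
    · nlinarith
  exact ⟨by exact_mod_cast h1, by exact_mod_cast h2⟩

theorem comb {A B C s l : ℝ} (hA : A ≤ C) (hB : B ≤ C) (hC : 0 ≤ C) (h0 : 0 ≤ l) (h1 : l ≤ s)
    (h2 : s ≤ 1) : (s - l) * A + l * B ≤ C := by
  nlinarith [mul_nonneg (sub_nonneg.2 h1) (sub_nonneg.2 hA), mul_nonneg h0 (sub_nonneg.2 hB),
    mul_nonneg (sub_nonneg.2 h2) hC]

/-- first coordinate in a piece -/
noncomputable def ca (i j : Fin 3) (s l : ℝ) : ℝ :=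
  s * ((cu j - cu i) / 2) + l * (1 / 3 - (cu i + cu j) / 2)
/-- second coordinate in a piece -/
noncomputable def cb (i j : Fin 3) (s l : ℝ) : ℝ :=
  s * ((cv j - cv i) / 2) + l * (1 / 3 - (cv i + cv j) / 2)

theorem quad (i j : Fin 3) (hij : i ≠ j) {s l : ℝ} (h0 : 0 ≤ l) (h1 : l ≤ s) (h2 : s ≤ 1)
    (m n : ℤ) : ca i j s l * (2 * m + n) + cb i j s l * (2 * n + m) ≤ (m : ℝ) ^ 2 + m * n + n ^ 2 := by
  have hm := sq_ge m
  have hn := sq_ge n
  have hmn := sq_ge (m + n)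
  push_cast at hmn
  have hC : (0 : ℝ) ≤ (m : ℝ) ^ 2 + m * n + n ^ 2 := by nlinarith [sq_nonneg ((m : ℝ) + n), sq_nonneg (m : ℝ), sq_nonneg (n : ℝ)]
  have key : ∀ A B : ℝ, ca i j s l * (2 * m + n) + cb i j s l * (2 * n + m) = (s - l) * A + l * B →
      A ≤ (m : ℝ) ^ 2 + m * n + n ^ 2 → B ≤ (m : ℝ) ^ 2 + m * n + n ^ 2 →
      ca i j s l * (2 * m + n) + cb i j s l * (2 * n + m) ≤ (m : ℝ) ^ 2 + m * n + n ^ 2 := by
    intro A B h hA hB
    rw [h]; exact comb hA hB hC h0 h1 h2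
  fin_cases i <;> fin_cases j <;> simp only [ca, cb, cu, cv] at key ⊢
  · exact absurd rfl hij
  · exact key ((2 * m + n) / 2) (m + n) (by simp; ring) (by nlinarith) (by nlinarith)
  · exact key ((2 * n + m) / 2) (m + n) (by simp; ring) (by nlinarith) (by nlinarith)
  · exact key (-(2 * m + n) / 2) (-m) (by simp; ring) (by nlinarith) (by nlinarith)
  · exact absurd rfl hij
  · exact key ((n - m) / 2) (-m) (by simp; ring) (by nlinarith) (by nlinarith)
  · exact key (-(2 * n + m) / 2) (-n) (by simp; ring) (by nlinarith) (by nlinarith)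
  · exact key ((m - n) / 2) (-n) (by simp; ring) (by nlinarith) (by nlinarith)
  · exact absurd rfl hij

theorem norm_quad (i j : Fin 3) (hij : i ≠ j) (s l : ℝ) :
    3 * (ca i j s l ^ 2 + ca i j s l * cb i j s l + cb i j s l ^ 2) = 3 / 4 * s ^ 2 + 1 / 4 * l ^ 2 := by
  fin_cases i <;> fin_cases j <;> simp only [ca, cb, cu, cv] <;>
    first
    | exact absurd rfl hij
    | (simp; ring)

/-- the piece -/
noncomputable def pc (u v σ : ℤ) (i j : Fin 3) : Set ℂ :=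
  tri (VV u v σ i) (mid (VV u v σ i) (VV u v σ j) - VV u v σ i)
    (PP u v σ - mid (VV u v σ i) (VV u v σ j))

theorem mem_pc {u v σ : ℤ} {i j : Fin 3} {x : ℂ} (hx : x ∈ pc u v σ i j) :
    ∃ s l : ℝ, 0 ≤ l ∧ l ≤ s ∧ s ≤ 1 ∧ x = lp (u + σ * cu i + σ * ca i j s l)
      (v + σ * cv i + σ * cb i j s l) := by
  unfold pc at hx
  rw [mem_tri] at hx
  obtain ⟨s, l, h0, h1, h2, rfl⟩ := hx
  refine ⟨s, l, h0, h1, h2, ?_⟩
  unfold VV PP
  rw [mid_lp, lp_sub, lp_sub, smul_lp, smul_lp, lp_add, lp_add]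
  unfold ca cb
  congr 1 <;> ring

theorem near {u v σ : ℤ} (hσ : (σ : ℝ) ^ 2 = 1) {i j : Fin 3} (hij : i ≠ j) {x : ℂ}
    (hx : x ∈ pc u v σ i j) (m n : ℤ) : ‖x - VV u v σ i‖ ≤ ‖x - lp m n‖ := by
  obtain ⟨s, l, h0, h1, h2, rfl⟩ := mem_pc hx
  have h := quad i j hij h0 h1 h2 (σ * (m - u) - cu i) (σ * (n - v) - cv i)
  rw [← sq_le_sq₀ (norm_nonneg _) (norm_nonneg _)]
  unfold VV
  rw [lp_sub, lp_sub, nsq_lp, nsq_lp]
  push_cast at h
  generalize ca i j s l = a at h ⊢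
  generalize cb i j s l = b at h ⊢
  generalize (cu i : ℝ) = A at h ⊢
  generalize (cv i : ℝ) = B at h ⊢
  generalize (σ : ℝ) = t at h hσ ⊢
  generalize (u : ℝ) = U at h ⊢
  generalize (v : ℝ) = V at h ⊢
  generalize (m : ℝ) = m at h ⊢
  generalize (n : ℝ) = n at h ⊢
  have e1 : 3 * ((U + t * A + t * a - (U + t * A)) ^ 2 + (U + t * A + t * a - (U + t * A)) *
      (V + t * B + t * b - (V + t * B)) + (V + t * B + t * b - (V + t * B)) ^ 2) =
      3 * (a ^ 2 + a * b + b ^ 2) := by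
    linear_combination 3 * (a ^ 2 + a * b + b ^ 2) * hσ
  have e2 : 3 * ((U + t * A + t * a - m) ^ 2 + (U + t * A + t * a - m) * (V + t * B + t * b - n) +
      (V + t * B + t * b - n) ^ 2) = 3 * ((a - (t * (m - U) - A)) ^ 2 +
      (a - (t * (m - U) - A)) * (b - (t * (n - V) - B)) + (b - (t * (n - V) - B)) ^ 2) := by
    linear_combination (3 * ((A + a) ^ 2 + (A + a) * (B + b) + (B + b) ^ 2) -
      3 * ((m - U) ^ 2 + (m - U) * (n - V) + (n - V) ^ 2)) * hσ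
  rw [e1, e2]
  nlinarith

theorem pc_norm {u v σ : ℤ} (hσ : (σ : ℝ) ^ 2 = 1) {i j : Fin 3} (hij : i ≠ j) {x : ℂ}
    (hx : x ∈ pc u v σ i j) : ‖x - VV u v σ i‖ ≤ 1 := by
  obtain ⟨s, l, h0, h1, h2, rfl⟩ := mem_pc hx
  have h := norm_quad i j hij s l
  have h3 : ‖lp (u + σ * cu i + σ * ca i j s l) (v + σ * cv i + σ * cb i j s l) - VV u v σ i‖ ^ 2
      ≤ 1 := by
    unfold VV
    rw [lp_sub, nsq_lp]
    have e : 3 * (((u + σ * cu i + σ * ca i j s l - (u + σ * cu i) : ℝ)) ^ 2 +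
        (u + σ * cu i + σ * ca i j s l - (u + σ * cu i)) *
        (v + σ * cv i + σ * cb i j s l - (v + σ * cv i)) +
        (v + σ * cv i + σ * cb i j s l - (v + σ * cv i)) ^ 2) =
        3 * (ca i j s l ^ 2 + ca i j s l * cb i j s l + cb i j s l ^ 2) := by
      linear_combination 3 * (ca i j s l ^ 2 + ca i j s l * cb i j s l + cb i j s l ^ 2) * hσ
    rw [e, h]
    nlinarith
  nlinarith [norm_nonneg (lp (u + σ * cu i + σ * ca i j s l) (v + σ * cv i + σ * cb i j s l) -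
    VV u v σ i)]

end Pool.Agent.Q208.DI
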