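import Pool.Agent.Q208.DI.Low1

/-!
# The triangular lattice: integrals over cells
-/

set_option autoImplicit false

namespace Pool.Agent.Q208.DI

open MeasureTheory Set Metric

theorem cst_lt : cst < 1 := by
  have : Real.log 3 ≤ 3 - 1 := Real.log_le_sub_one_of_pos (by norm_num)
  unfold cst
  linarith

theorem pc_e (u v σ : ℤ) (i j : Fin 3) (m : ℝ) :
    (mid (VV u v σ i) (VV u v σ j) - VV u v σ i) +
      m • (PP u v σ - mid (VV u v σ i) (VV u v σ j)) =
      lp (σ * ca i j 1 m) (σ * cb i j 1 m) := by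
  unfold VV PP
  rw [mid_lp, lp_sub, lp_sub, smul_lp, lp_add]
  unfold ca cb
  congr 1 <;> ring

theorem pc_II {u v σ : ℤ} (hσ : (σ : ℝ) ^ 2 = 1) {i j : Fin 3} (hij : i ≠ j) :
    II (mid (VV u v σ i) (VV u v σ j) - VV u v σ i)
      (PP u v σ - mid (VV u v σ i) (VV u v σ j)) = 3 / 2 * cst := by
  unfold II
  have : ∀ m : ℝ, ‖(mid (VV u v σ i) (VV u v σ j) - VV u v σ i) +
      m • (PP u v σ - mid (VV u v σ i) (VV u v σ j))‖ = 1 / 2 * √(3 + m ^ 2) := by
    intro m
    rw [pc_e]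
    have h := norm_quad i j hij 1 m
    have h1 := nsq_lp (σ * ca i j 1 m) (σ * cb i j 1 m)
    have h2 : ‖lp (σ * ca i j 1 m) (σ * cb i j 1 m)‖ ^ 2 = (1 / 2 * √(3 + m ^ 2)) ^ 2 := by
      have hs : √(3 + m ^ 2) ^ 2 = 3 + m ^ 2 := Real.sq_sqrt (by positivity)
      rw [h1, mul_pow (1 / 2), hs]
      have : 3 * ((σ * ca i j 1 m) ^ 2 + σ * ca i j 1 m * (σ * cb i j 1 m) +
          (σ * cb i j 1 m) ^ 2) =
          3 * (ca i j 1 m ^ 2 + ca i j 1 m * cb i j 1 m + cb i j 1 m ^ 2) := by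
        linear_combination 3 * (ca i j 1 m ^ 2 + ca i j 1 m * cb i j 1 m + cb i j 1 m ^ 2) * hσ
      rw [this, h]; ring
    exact (sq_eq_sq₀ (norm_nonneg _) (by positivity)).1 h2
  simp only [this]
  rw [intervalIntegral.integral_const_mul, int_sqrt]
  ring

theorem pc_cr {u v σ : ℤ} (hσ : (σ : ℝ) ^ 2 = 1) {i j : Fin 3} (hij : i ≠ j) :
    |cr (mid (VV u v σ i) (VV u v σ j) - VV u v σ i)
      (PP u v σ - mid (VV u v σ i) (VV u v σ j))| = √3 / 4 := by
  rw [cr_piece]
  unfold VV PP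
  rw [lp_sub, lp_sub, cr_lp]
  have h := s3pos
  have key : ∀ r : ℝ, (r = √3 / 4 ∨ r = -(√3 / 4)) → |r| = √3 / 4 := by
    rintro r (rfl | rfl)
    · exact abs_of_pos (by positivity)
    · rw [abs_neg]; exact abs_of_pos (by positivity)
  apply key
  fin_cases i <;> fin_cases j <;> simp only [cu, cv]
  · exact absurd rfl hij
  · left; simp; linear_combination (3 * √3 / 2 / 3 / 2) * hσ
  · right; simp; linear_combination (-3 * √3 / 2 / 3 / 2) * hσ
  · right; simp; linear_combination (-3 * √3 / 2 / 3 / 2) * hσ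
  · exact absurd rfl hij
  · left; simp; linear_combination (3 * √3 / 2 / 3 / 2) * hσ
  · left; simp; linear_combination (3 * √3 / 2 / 3 / 2) * hσ
  · right; simp; linear_combination (-3 * √3 / 2 / 3 / 2) * hσ
  · exact absurd rfl hij

theorem pc_vol {u v σ : ℤ} (hσ : (σ : ℝ) ^ 2 = 1) {i j : Fin 3} (hij : i ≠ j) :
    volume (pc u v σ i j) = ENNReal.ofReal (√3 / 8) := by
  unfold pc
  rw [volume_tri, pc_cr hσ hij, volume_Sd, ← ENNReal.ofReal_mul (by positivity)]
  congr 1; ring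

theorem pc_diag (u v σ : ℤ) (i : Fin 3) : volume (pc u v σ i i) = 0 := by
  unfold pc
  have : mid (VV u v σ i) (VV u v σ i) - VV u v σ i = 0 := by
    unfold mid; apply Complex.ext <;> simp <;> ring
  rw [volume_tri, this]
  have : ∀ z, cr 0 z = 0 := by intro z; unfold cr; simp
  rw [this]; simp

/-- the integral of `1 - distance` over a piece -/
theorem pc_int {u v σ : ℤ} (hσ : (σ : ℝ) ^ 2 = 1) {i j : Fin 3} (hij : i ≠ j) :
    ∫⁻ x in pc u v σ i j, ENNReal.ofReal (1 - ‖x - VV u v σ i‖) =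
      ENNReal.ofReal (√3 / 8 * (1 - cst)) := by
  have hm : MeasurableSet (pc u v σ i j) := by
    unfold pc
    have hSd : IsCompact Sd := by
      rw [isCompact_iff_isClosed_bounded]
      constructor
      · have h1 : IsClosed {z : ℂ | 0 ≤ z.im} := isClosed_le continuous_const Complex.continuous_im
        have h2 : IsClosed {z : ℂ | z.im ≤ z.re} :=
          isClosed_le Complex.continuous_im Complex.continuous_re
        have h3 : IsClosed {z : ℂ | z.re ≤ 1} := isClosed_le Complex.continuous_re continuous_const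
        exact h1.inter (h2.inter h3)
      · rw [isBounded_iff_forall_norm_le]
        refine ⟨2, fun z hz => ?_⟩
        obtain ⟨h1, h2, h3⟩ := hz
        refine (Complex.norm_le_abs_re_add_abs_im z).trans ?_
        rw [abs_of_nonneg h1, abs_of_nonneg (h1.trans h2)]
        linarith
    refine (IsCompact.image hSd ?_).isClosed.measurableSet
    fun_prop
  have hsum : ∫⁻ x in pc u v σ i j, (ENNReal.ofReal (1 - ‖x - VV u v σ i‖) +
      ENNReal.ofReal ‖x - VV u v σ i‖) = ENNReal.ofReal (√3 / 8) := by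
    rw [← pc_vol hσ hij (u := u) (v := v), ← setLIntegral_one]
    refine setLIntegral_congr_fun hm fun x hx => ?_
    have := pc_norm hσ hij hx
    rw [← ENNReal.ofReal_add (by linarith) (norm_nonneg _)]
    simp
  rw [lintegral_add_right _ (by fun_prop)] at hsum
  have h2 : ∫⁻ x in pc u v σ i j, ENNReal.ofReal ‖x - VV u v σ i‖ =
      ENNReal.ofReal (√3 / 8 * cst) := by
    unfold pc
    rw [lintegral_tri, pc_cr hσ hij, pc_II hσ hij]
    congr 1; ring
  rw [h2] at hsum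
  have hc : 0 < cst := by linarith [cst_gt]
  rw [ENNReal.eq_sub_of_add_eq ENNReal.ofReal_ne_top hsum, ← ENNReal.ofReal_sub _ (by positivity)]
  congr 1; ring

/-- the closed lattice triangle -/
noncomputable def cell (u v σ : ℤ) : Set ℂ := hull (VV u v σ)

theorem cell_sub (u v σ : ℤ) : cell u v σ ⊆ ⋃ t : Fin 3 × Fin 3, pc u v σ t.1 t.2 := by
  rintro _ ⟨x, h1, h2, rfl⟩
  obtain ⟨i, j, h⟩ := cover (V := VV u v σ) (w := fun _ => 1 / 3) (fun _ => by norm_num)
    (by simp) h1 h2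
  rw [← PP_eq] at h
  exact mem_iUnion.2 ⟨(i, j), h⟩

theorem cell_sub' {u v σ : ℤ} {x : ℂ} (hx : x ∈ cell u v σ) :
    ∃ i j, x ∈ pc u v σ i j := by
  have := cell_sub u v σ hx
  rw [mem_iUnion] at this
  obtain ⟨t, ht⟩ := this
  exact ⟨t.1, t.2, ht⟩

theorem sum_six (b : ENNReal) :
    ∑ t : Fin 3 × Fin 3, (if t.1 = t.2 then 0 else b) = 6 * b := by
  rw [Fintype.sum_prod_type]
  simp only [Fin.sum_univ_three]
  simp
  ring

/-- inner cells -/
theorem cell_inner {u v σ : ℤ} (hσ : (σ : ℝ) ^ 2 = 1) (g : ℂ → ℝ)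
    (hg : ∀ i j, i ≠ j → ∀ x ∈ pc u v σ i j, g x ≤ 1 - ‖x - VV u v σ i‖) :
    ∫⁻ x in cell u v σ, ENNReal.ofReal (g x) ≤ 6 * ENNReal.ofReal (√3 / 8 * (1 - cst)) := by
  calc ∫⁻ x in cell u v σ, ENNReal.ofReal (g x) ≤ _ := lintegral_mono_set (cell_sub u v σ)
    _ ≤ _ := lintegral_iUnion_le _ _
    _ = ∑ t : Fin 3 × Fin 3, _ := tsum_fintype _
    _ ≤ ∑ t : Fin 3 × Fin 3, (if t.1 = t.2 then 0 else ENNReal.ofReal (√3 / 8 * (1 - cst))) := by
        refine Finset.sum_le_sum fun t _ => ?_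
        split_ifs with h
        · rw [h, Measure.restrict_eq_zero.2 (pc_diag u v σ t.2), lintegral_zero_measure]
        · rw [← pc_int hσ h (u := u) (v := v)]
          refine setLIntegral_mono (by fun_prop) fun x hx => ?_
          exact ENNReal.ofReal_le_ofReal (hg _ _ h x hx)
    _ = _ := sum_six _

/-- all cells -/
theorem cell_bdry {u v σ : ℤ} (hσ : (σ : ℝ) ^ 2 = 1) (g : ℂ → ℝ) (hg : ∀ x, g x ≤ 1) :
    ∫⁻ x in cell u v σ, ENNReal.ofReal (g x) ≤ 6 * ENNReal.ofReal (√3 / 8) := by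
  calc ∫⁻ x in cell u v σ, ENNReal.ofReal (g x) ≤ _ := lintegral_mono_set (cell_sub u v σ)
    _ ≤ _ := lintegral_iUnion_le _ _
    _ = ∑ t : Fin 3 × Fin 3, _ := tsum_fintype _
    _ ≤ ∑ t : Fin 3 × Fin 3, (if t.1 = t.2 then 0 else ENNReal.ofReal (√3 / 8)) := by
        refine Finset.sum_le_sum fun t _ => ?_
        split_ifs with h
        · rw [h, Measure.restrict_eq_zero.2 (pc_diag u v σ t.2), lintegral_zero_measure]
        · rw [← pc_vol hσ h (u := u) (v := v), ← setLIntegral_one]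
          refine setLIntegral_mono measurable_const fun x hx => ?_
          rw [← ENNReal.ofReal_one]
          exact ENNReal.ofReal_le_ofReal (hg x)
    _ = _ := sum_six _

theorem ca_bd (i j : Fin 3) {s l : ℝ} (h0 : 0 ≤ l) (h1 : l ≤ s) (h2 : s ≤ 1) :
    0 ≤ cu i + ca i j s l ∧ cu i + ca i j s l ≤ 1 := by
  fin_cases i <;> fin_cases j <;> simp only [ca, cu] <;> simp <;> constructor <;> linarith

theorem cb_bd (i j : Fin 3) {s l : ℝ} (h0 : 0 ≤ l) (h1 : l ≤ s) (h2 : s ≤ 1) :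
    0 ≤ cv i + cb i j s l ∧ cv i + cb i j s l ≤ 1 := by
  fin_cases i <;> fin_cases j <;> simp only [cb, cv] <;> simp <;> constructor <;> linarith

end Pool.Agent.Q208.DI
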