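import Pool.Agent.Q208.DI.Low2

/-!
# The triangular lattice: the domains
-/

set_option autoImplicit false

namespace Pool.Agent.Q208.DI

open MeasureTheory Set Metric

/-- first lattice coordinate -/
noncomputable def pp (y : ℂ) : ℝ := y.re / √3 - y.im / 3
/-- second lattice coordinate -/
noncomputable def qq (y : ℂ) : ℝ := 2 / 3 * y.im

theorem lp_pq (y : ℂ) : lp (pp y) (qq y) = y := lp_surj y

theorem pp_lp (p q : ℝ) : pp (lp p q) = p := by
  unfold pp lp
  have := s3pos
  simp only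
  field_simp
  ring

theorem qq_lp (p q : ℝ) : qq (lp p q) = q := by
  unfold qq lp
  simp only
  ring

theorem cont_pp : Continuous pp := by
  unfold pp
  have h1 : Continuous fun x : ℂ => x.re := Complex.continuous_re
  have h2 : Continuous fun x : ℂ => x.im := Complex.continuous_im
  fun_prop

theorem cont_qq : Continuous qq := by
  unfold qq
  have h2 : Continuous fun x : ℂ => x.im := Complex.continuous_im
  fun_prop

/-- the open parallelogram -/
def Para (N : ℕ) : Set ℂ := {y | (0 < pp y ∧ pp y < N) ∧ 0 < qq y ∧ qq y < N}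

/-- the lattice points -/
noncomputable def Lat (N : ℕ) : Set ℂ :=
  (fun t : ℕ × ℕ => lp t.1 t.2) '' (Finset.range (N + 1) ×ˢ Finset.range (N + 1) : Finset (ℕ × ℕ))

/-- the domains -/
noncomputable def Om (N : ℕ) : Set ℂ := Para N \ Lat N

theorem Lat_finite (N : ℕ) : (Lat N).Finite := (Finset.finite_toSet _).image _

theorem isOpen_Para (N : ℕ) : IsOpen (Para N) :=
  ((isOpen_lt continuous_const cont_pp).inter (isOpen_lt cont_pp continuous_const)).inter
    ((isOpen_lt continuous_const cont_qq).inter (isOpen_lt cont_qq continuous_const))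

theorem isOpen_Om (N : ℕ) : IsOpen (Om N) := (isOpen_Para N).sdiff (Lat_finite N).isClosed

theorem norm_lp_le {p q N : ℝ} (hp : 0 ≤ p) (hpN : p ≤ N) (hq : 0 ≤ q) (hqN : q ≤ N) :
    ‖lp p q‖ ≤ 3 * N := by
  have h := nsq_lp p q
  have hN : 0 ≤ N := hp.trans hpN
  have : ‖lp p q‖ ^ 2 ≤ (3 * N) ^ 2 := by rw [h]; nlinarith
  exact (sq_le_sq₀ (norm_nonneg _) (by positivity)).1 this

theorem Om_sub_ball (N : ℕ) : Om N ⊆ ball 0 (3 * N + 1) := by
  rintro y ⟨⟨⟨h1, h2⟩, h3, h4⟩, -⟩
  rw [mem_ball_zero_iff, ← lp_pq y]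
  have := norm_lp_le h1.le h2.le h3.le h4.le
  linarith

theorem Lat_compl {N a b : ℕ} (ha : a ≤ N) (hb : b ≤ N) : lp a b ∈ (Om N)ᶜ := by
  intro h
  apply h.2
  exact ⟨(a, b), by simp; omega, rfl⟩

/-- the vertices of the cells -/
theorem VV_compl {N i j : ℕ} (hi : i < N) (hj : j < N) (k : Fin 3) :
    VV i j 1 k ∈ (Om N)ᶜ ∧ VV (i + 1) (j + 1) (-1) k ∈ (Om N)ᶜ := by
  unfold VV
  constructor
  · fin_cases k <;> simp only [cu, cv]
    · have := Lat_compl (N := N) (a := i) (b := j) (by omega) (by omega)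
      simpa using this
    · have := Lat_compl (N := N) (a := i + 1) (b := j) (by omega) (by omega)
      simpa using this
    · have := Lat_compl (N := N) (a := i) (b := j + 1) (by omega) (by omega)
      simpa using this
  · fin_cases k <;> simp only [cu, cv]
    · have := Lat_compl (N := N) (a := i + 1) (b := j + 1) (by omega) (by omega)
      simpa using this
    · have := Lat_compl (N := N) (a := i) (b := j + 1) (by omega) (by omega)
      simpa using this
    · have := Lat_compl (N := N) (a := i + 1) (b := j) (by omega) (by omega)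
      simpa using this

theorem Om_cover {N : ℕ} {x : ℂ} (hx : x ∈ Om N) : ∃ i j : ℕ, i < N ∧ j < N ∧
    (x ∈ cell i j 1 ∨ x ∈ cell (i + 1) (j + 1) (-1)) := by
  obtain ⟨⟨⟨h1, h2⟩, h3, h4⟩, -⟩ := hx
  have a1 := Nat.floor_le h1.le
  have a2 := Nat.lt_floor_add_one (pp x)
  have b1 := Nat.floor_le h3.le
  have b2 := Nat.lt_floor_add_one (qq x)
  refine ⟨⌊pp x⌋₊, ⌊qq x⌋₊, (Nat.floor_lt h1.le).2 h2, (Nat.floor_lt h3.le).2 h4, ?_⟩
  set i := ⌊pp x⌋₊
  set j := ⌊qq x⌋₊
  set f := pp x - i with hf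
  set g := qq x - j with hg
  have ex : x = lp (i + f) (j + g) := by
    rw [hf, hg]; simp [lp_pq]
  have f0 : 0 ≤ f := by linarith
  have f1 : f ≤ 1 := by linarith
  have g0 : 0 ≤ g := by linarith
  have g1 : g ≤ 1 := by linarith
  rcases le_or_gt (f + g) 1 with h | h
  · left
    refine ⟨![1 - f - g, f, g], ?_, ?_, ?_⟩
    · intro k; fin_cases k
      · show 0 ≤ 1 - f - g; linarith
      · exact f0
      · exact g0
    · rw [Fin.sum_univ_three]
      show 1 - f - g + f + g = 1
      ring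
    · rw [Fin.sum_univ_three]
      show x = (1 - f - g) • _ + f • _ + g • _
      unfold VV
      simp only [smul_lp, lp_add, cu, cv]
      rw [ex]
      simp
      congr 1 <;> ring
  · right
    refine ⟨![f + g - 1, 1 - f, 1 - g], ?_, ?_, ?_⟩
    · intro k; fin_cases k
      · show 0 ≤ f + g - 1; linarith
      · show 0 ≤ 1 - f; linarith
      · show 0 ≤ 1 - g; linarith
    · rw [Fin.sum_univ_three]
      show f + g - 1 + (1 - f) + (1 - g) = 1
      ring
    · rw [Fin.sum_univ_three]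
      show x = (f + g - 1) • _ + (1 - f) • _ + (1 - g) • _
      unfold VV
      simp only [smul_lp, lp_add, cu, cv]
      rw [ex]
      simp
      congr 1 <;> ring

theorem Om_le_one (N : ℕ) (x : ℂ) : infDist x (Om N)ᶜ ≤ 1 := by
  by_cases hx : x ∈ Om N
  · obtain ⟨i, j, hi, hj, h⟩ := Om_cover hx
    have aux : ∀ u v σ : ℤ, (σ : ℝ) ^ 2 = 1 → (∀ k, VV u v σ k ∈ (Om N)ᶜ) → x ∈ cell u v σ →
        infDist x (Om N)ᶜ ≤ 1 := by
      intro u v σ hσ hk hc
      obtain ⟨a, b, hab⟩ := cell_sub' hc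
      by_cases hne : a = b
      · -- a degenerate piece: use the distance to the nearest vertex
        obtain ⟨s, l, h0, h1, h2, hx⟩ := mem_pc hab
        have hn : ‖x - VV u v σ a‖ ≤ 1 := by
          have h3 : ‖x - VV u v σ a‖ ^ 2 ≤ 1 := by
            rw [hx]; unfold VV
            rw [lp_sub, nsq_lp, hne]
            have e1 : ca b b s l = l * (1 / 3 - cu b) := by unfold ca; ring
            have e2 : cb b b s l = l * (1 / 3 - cv b) := by unfold cb; ring
            rw [e1, e2]
            have e3 : 3 * (((u + σ * cu b + σ * (l * (1 / 3 - cu b)) - (u + σ * cu b) : ℝ)) ^ 2 +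
                (u + σ * cu b + σ * (l * (1 / 3 - cu b)) - (u + σ * cu b)) *
                (v + σ * cv b + σ * (l * (1 / 3 - cv b)) - (v + σ * cv b)) +
                (v + σ * cv b + σ * (l * (1 / 3 - cv b)) - (v + σ * cv b)) ^ 2) =
                l ^ 2 * (3 * ((1 / 3 - cu b) ^ 2 + (1 / 3 - cu b) * (1 / 3 - cv b) +
                  (1 / 3 - cv b) ^ 2)) := by
              linear_combination (l ^ 2 * (3 * ((1 / 3 - cu b) ^ 2 +
                (1 / 3 - cu b) * (1 / 3 - cv b) + (1 / 3 - cv b) ^ 2))) * hσ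
            rw [e3]
            have e4 : (3 * ((1 / 3 - cu b) ^ 2 + (1 / 3 - cu b) * (1 / 3 - cv b) +
                  (1 / 3 - cv b) ^ 2) : ℝ) = 1 := by
              fin_cases b <;> simp [cu, cv] <;> norm_num
            rw [e4]
            nlinarith
          nlinarith [norm_nonneg (x - VV u v σ a)]
        refine (infDist_le_dist_of_mem (hk a)).trans ?_
        rw [dist_eq_norm]; exact hn
      · refine (infDist_le_dist_of_mem (hk a)).trans ?_
        rw [dist_eq_norm]; exact pc_norm hσ hne hab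
    rcases h with h | h
    · exact aux i j 1 (by norm_num) (fun k => (VV_compl hi hj k).1) h
    · exact aux (i + 1) (j + 1) (-1) (by norm_num) (fun k => (VV_compl hi hj k).2) h
  · rw [infDist_zero_of_mem hx]; exact zero_le_one

/-- in the inner cells the distance is the distance to the lattice -/
theorem Om_inner {N : ℕ} {u v σ : ℤ} (hσ : (σ : ℝ) ^ 2 = 1) {i j : Fin 3} (hij : i ≠ j) {x : ℂ}
    (hx : x ∈ pc u v σ i j) (h1 : 1 ≤ pp x) (h2 : pp x ≤ N - 1) (h3 : 1 ≤ qq x)
    (h4 : qq x ≤ N - 1) : ‖x - VV u v σ i‖ ≤ infDist x (Om N)ᶜ := by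
  have hne : ((Om N)ᶜ).Nonempty := ⟨_, Lat_compl (N := N) (a := 0) (b := 0) (by omega) (by omega)⟩
  rw [le_infDist hne]
  intro y hy
  rw [dist_eq_norm]
  by_cases hyP : y ∈ Para N
  · have hyL : y ∈ Lat N := by
      by_contra h
      exact hy ⟨hyP, h⟩
    obtain ⟨t, -, rfl⟩ := hyL
    have := near hσ hij hx t.1 t.2
    simpa using this
  · refine (pc_norm hσ hij hx).trans ?_
    have key : ∀ a b : ℝ, (1 ≤ |a| ∨ 1 ≤ |b|) → 1 ≤ ‖lp a b‖ := by
      intro a b h
      have hn := nsq_lp a b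
      have h5 : 1 ≤ a ^ 2 ∨ 1 ≤ b ^ 2 := by
        rcases h with h | h
        · left; rw [← sq_abs]; nlinarith
        · right; rw [← sq_abs]; nlinarith
      have h6 : 1 ≤ ‖lp a b‖ ^ 2 := by
        rw [hn]
        rcases h5 with h | h
        · nlinarith [sq_nonneg (a + 2 * b)]
        · nlinarith [sq_nonneg (b + 2 * a)]
      nlinarith [norm_nonneg (lp a b)]
    rw [← lp_pq x, ← lp_pq y, lp_sub]
    apply key
    by_contra hcon
    push Not at hcon
    obtain ⟨c1, c2⟩ := hcon
    rw [abs_lt] at c1 c2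
    exact hyP ⟨⟨by linarith, by linarith⟩, by linarith, by linarith⟩

theorem volume_Om (N : ℕ) : volume (Om N) = ENNReal.ofReal (3 * √3 / 2 * N ^ 2) := by
  unfold Om
  rw [measure_sdiff_null ((Lat_finite N).measure_zero _)]
  set S : Set ℂ := {z | z.re ∈ Ioo (0 : ℝ) N ∧ z.im ∈ Ioo (0 : ℝ) N} with hS
  have e : Para N = lin (lp 1 0) (lp 0 1) '' S := by
    ext y
    constructor
    · intro hy
      refine ⟨⟨pp y, qq y⟩, hy, ?_⟩
      rw [lin_apply, smul_lp, smul_lp, lp_add]
      simp [lp_pq]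
    · rintro ⟨z, hz, rfl⟩
      rw [lin_apply, smul_lp, smul_lp, lp_add]
      simp only [mul_one, mul_zero, zero_add, add_zero]
      unfold Para
      show (0 < pp _ ∧ pp _ < _) ∧ 0 < qq _ ∧ qq _ < _
      rw [pp_lp, qq_lp]
      exact hz
  have hdet : LinearMap.det (lin (lp 1 0) (lp 0 1) : ℂ →ₗ[ℝ] ℂ) = cr (lp 1 0) (lp 0 1) :=
    lin_det _ _
  rw [e, Measure.addHaar_image_continuousLinearMap, hdet, cr_lp]
  have hS2 : S = Complex.measurableEquivRealProd ⁻¹' (Ioo (0 : ℝ) N ×ˢ Ioo (0 : ℝ) N) := by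
    ext z; rfl
  rw [hS2, Complex.volume_preserving_equiv_real_prod.measure_preimage_equiv,
    Measure.volume_eq_prod, Measure.prod_prod, Real.volume_Ioo]
  rw [← ENNReal.ofReal_mul (by simp), ← ENNReal.ofReal_mul (abs_nonneg _)]
  congr 1
  have := s3pos
  rw [abs_of_pos (by simp)]
  simp
  ring

end Pool.Agent.Q208.DI
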