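import Mathlib

/-!
# Integrals over triangles in the plane
-/

set_option autoImplicit false

namespace Pool.Agent.Q208.DI

open MeasureTheory Set

/-- the cross product -/
def cr (u v : ℂ) : ℝ := u.re * v.im - u.im * v.re

/-- the inner product -/
def dt (u v : ℂ) : ℝ := u.re * v.re + u.im * v.im

/-- the standard triangle `0 ≤ y ≤ x ≤ 1` -/
def Sd : Set ℂ := {z | 0 ≤ z.im ∧ z.im ≤ z.re ∧ z.re ≤ 1}

/-- the linear map with columns `e1`, `e2` -/
noncomputable def lin (e1 e2 : ℂ) : ℂ →L[ℝ] ℂ :=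
  Complex.reCLM.smulRight e1 + Complex.imCLM.smulRight e2

theorem lin_apply (e1 e2 z : ℂ) : lin e1 e2 z = z.re • e1 + z.im • e2 := by
  simp [lin]

theorem lin_det (e1 e2 : ℂ) : (lin e1 e2).det = cr e1 e2 := by
  rw [ContinuousLinearMap.det, ← LinearMap.det_toMatrix Complex.basisOneI, Matrix.det_fin_two]
  simp [LinearMap.toMatrix_apply, lin_apply, cr]
  ring

/-- the triangle with vertices `v`, `v + e1`, `v + e1 + e2` -/
def tri (v e1 e2 : ℂ) : Set ℂ := (fun z : ℂ => v + lin e1 e2 z) '' Sd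

theorem mem_tri {v e1 e2 x : ℂ} : x ∈ tri v e1 e2 ↔
    ∃ s l : ℝ, 0 ≤ l ∧ l ≤ s ∧ s ≤ 1 ∧ x = v + s • e1 + l • e2 := by
  constructor
  · rintro ⟨z, ⟨h1, h2, h3⟩, rfl⟩
    exact ⟨z.re, z.im, h1, h2, h3, by simp only [lin_apply]; ring⟩
  · rintro ⟨s, l, h1, h2, h3, rfl⟩
    exact ⟨⟨s, l⟩, ⟨h1, h2, h3⟩, by simp only [lin_apply]; ring⟩

theorem measurableSet_Sd : MeasurableSet Sd := by
  have : IsClosed Sd := by
    have h1 : IsClosed {z : ℂ | 0 ≤ z.im} := isClosed_le continuous_const Complex.continuous_im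
    have h2 : IsClosed {z : ℂ | z.im ≤ z.re} := isClosed_le Complex.continuous_im Complex.continuous_re
    have h3 : IsClosed {z : ℂ | z.re ≤ 1} := isClosed_le Complex.continuous_re continuous_const
    exact h1.inter (h2.inter h3)
  exact this.measurableSet

theorem tri_image (v e1 e2 : ℂ) : tri v e1 e2 = (fun x => v + x) '' (lin e1 e2 '' Sd) := by
  unfold tri; rw [image_image]

theorem volume_tri (v e1 e2 : ℂ) :
    volume (tri v e1 e2) = ENNReal.ofReal |cr e1 e2| * volume Sd := by
  rw [tri_image, image_add_left, measure_preimage_add]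
  have := Measure.addHaar_image_continuousLinearMap volume (lin e1 e2) Sd
  rw [this]
  congr 3
  exact lin_det e1 e2

theorem lin_injective {e1 e2 : ℂ} (h : cr e1 e2 ≠ 0) : Function.Injective (lin e1 e2) := by
  intro z w hzw
  rw [lin_apply, lin_apply] at hzw
  have h1 := congrArg Complex.re hzw
  have h2 := congrArg Complex.im hzw
  simp at h1 h2
  unfold cr at h
  apply Complex.ext
  · have : (z.re - w.re) * (e1.re * e2.im - e1.im * e2.re) = 0 := by
      linear_combination e2.im * h1 - e2.re * h2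
    rcases mul_eq_zero.1 this with h3 | h3
    · linarith
    · exact absurd h3 h
  · have : (z.im - w.im) * (e1.re * e2.im - e1.im * e2.re) = 0 := by
      linear_combination -e1.im * h1 + e1.re * h2
    rcases mul_eq_zero.1 this with h3 | h3
    · linarith
    · exact absurd h3 h

/-- integrals over the standard triangle -/
theorem lintegral_Sd (F : ℝ → ℝ → ENNReal) (hF : Measurable (Function.uncurry F)) :
    ∫⁻ z in Sd, F z.re z.im = ∫⁻ s in Icc (0 : ℝ) 1, ∫⁻ l in Icc (0 : ℝ) s, F s l := by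
  have h1 : ∫⁻ z in Sd, F z.re z.im =
      ∫⁻ z : ℂ, (fun p : ℝ × ℝ => indicator {p : ℝ × ℝ | 0 ≤ p.2 ∧ p.2 ≤ p.1 ∧ p.1 ≤ 1}
        (Function.uncurry F) p) (Complex.measurableEquivRealProd z) := by
    rw [← lintegral_indicator measurableSet_Sd]
    refine lintegral_congr fun z => ?_
    by_cases hz : z ∈ Sd
    · rw [indicator_of_mem hz]
      have : Complex.measurableEquivRealProd z ∈ {p : ℝ × ℝ | 0 ≤ p.2 ∧ p.2 ≤ p.1 ∧ p.1 ≤ 1} := hz
      simp only [indicator_of_mem this]
      rfl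
    · rw [indicator_of_notMem hz]
      have : Complex.measurableEquivRealProd z ∉ {p : ℝ × ℝ | 0 ≤ p.2 ∧ p.2 ≤ p.1 ∧ p.1 ≤ 1} := hz
      simp only [indicator_of_notMem this]
  have hS : MeasurableSet {p : ℝ × ℝ | 0 ≤ p.2 ∧ p.2 ≤ p.1 ∧ p.1 ≤ 1} := by
    have h1 : IsClosed {z : ℝ × ℝ | 0 ≤ z.2} := isClosed_le continuous_const continuous_snd
    have h2 : IsClosed {z : ℝ × ℝ | z.2 ≤ z.1} := isClosed_le continuous_snd continuous_fst
    have h3 : IsClosed {z : ℝ × ℝ | z.1 ≤ 1} := isClosed_le continuous_fst continuous_const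
    exact (h1.inter (h2.inter h3)).measurableSet
  have hmeas := hF.indicator hS
  rw [h1, Complex.volume_preserving_equiv_real_prod.lintegral_comp hmeas]
  rw [show (volume : Measure (ℝ × ℝ)) = volume.prod volume from rfl,
    lintegral_prod _ hmeas.aemeasurable, ← lintegral_indicator measurableSet_Icc]
  refine lintegral_congr fun s => ?_
  by_cases hs : s ∈ Icc (0 : ℝ) 1
  · rw [indicator_of_mem hs, ← lintegral_indicator measurableSet_Icc]
    refine lintegral_congr fun l => ?_
    by_cases hl : l ∈ Icc (0 : ℝ) s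
    · rw [indicator_of_mem hl, indicator_of_mem]
      · rfl
      · exact ⟨hl.1, hl.2, hs.2⟩
    · rw [indicator_of_notMem hl, indicator_of_notMem]
      rintro ⟨h1, h2, -⟩
      exact hl ⟨h1, h2⟩
  · rw [indicator_of_notMem hs]
    rw [← lintegral_zero (α := ℝ) (μ := volume)]
    refine lintegral_congr fun l => ?_
    rw [indicator_of_notMem]
    rintro ⟨h1, h2, h3⟩
    exact hs ⟨h1.trans h2, h3⟩

theorem volume_Sd : volume Sd = ENNReal.ofReal (1 / 2) := by
  have h := lintegral_Sd (fun _ _ => 1) measurable_const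
  rw [setLIntegral_const, one_mul] at h
  rw [h]
  simp only [setLIntegral_const, one_mul, Real.volume_Icc, sub_zero]
  rw [← ofReal_integral_eq_lintegral_ofReal]
  · rw [integral_Icc_eq_integral_Ioc, ← intervalIntegral.integral_of_le zero_le_one]
    simp
  · exact (continuous_id.integrableOn_Icc)
  · filter_upwards [ae_restrict_mem measurableSet_Icc] with s hs
    exact hs.1

/-- the average over the opposite side -/
noncomputable def II (e1 e2 : ℂ) : ℝ := ∫ m in (0 : ℝ)..1, ‖e1 + m • e2‖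

theorem II_nonneg (e1 e2 : ℂ) : 0 ≤ II e1 e2 := by
  unfold II
  exact intervalIntegral.integral_nonneg zero_le_one fun _ _ => norm_nonneg _

theorem inner_int (e1 e2 : ℂ) (s : ℝ) (hs : 0 ≤ s) :
    ∫⁻ l in Icc (0 : ℝ) s, ENNReal.ofReal ‖s • e1 + l • e2‖ = ENNReal.ofReal (s ^ 2 * II e1 e2) := by
  have hc : Continuous fun l : ℝ => ‖s • e1 + l • e2‖ := by fun_prop
  rw [← ofReal_integral_eq_lintegral_ofReal hc.integrableOn_Icc
    (Filter.Eventually.of_forall fun _ => norm_nonneg _),
    integral_Icc_eq_integral_Ioc, ← intervalIntegral.integral_of_le hs]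
  congr 1
  have h1 := intervalIntegral.smul_integral_comp_mul_left (a := 0) (b := 1)
    (fun l : ℝ => ‖s • e1 + l • e2‖) s
  simp only [mul_zero, mul_one, smul_eq_mul] at h1
  rw [← h1]
  have h2 : ∀ x : ℝ, ‖s • e1 + (s * x) • e2‖ = s * ‖e1 + x • e2‖ := by
    intro x
    rw [mul_smul, ← smul_add, norm_smul, Real.norm_of_nonneg hs]
  simp only [h2]
  rw [intervalIntegral.integral_const_mul]
  unfold II
  ring

theorem outer_int (e1 e2 : ℂ) :
    ∫⁻ s in Icc (0 : ℝ) 1, ENNReal.ofReal (s ^ 2 * II e1 e2) = ENNReal.ofReal (1 / 3 * II e1 e2) := by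
  have hc : Continuous fun s : ℝ => s ^ 2 * II e1 e2 := by fun_prop
  rw [← ofReal_integral_eq_lintegral_ofReal hc.integrableOn_Icc
    (Filter.Eventually.of_forall fun _ => mul_nonneg (sq_nonneg _) (II_nonneg _ _)),
    integral_Icc_eq_integral_Ioc, ← intervalIntegral.integral_of_le zero_le_one]
  congr 1
  rw [intervalIntegral.integral_mul_const, integral_pow]
  norm_num

/-- **The mean distance to a vertex of a triangle.** -/
theorem lintegral_tri {v e1 e2 : ℂ} :
    ∫⁻ x in tri v e1 e2, ENNReal.ofReal ‖x - v‖ =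
      ENNReal.ofReal (|cr e1 e2| * (1 / 3 * II e1 e2)) := by
  by_cases h : cr e1 e2 = 0
  · have h0 : volume (tri v e1 e2) = 0 := by rw [volume_tri, h]; simp
    rw [Measure.restrict_eq_zero.2 h0, lintegral_zero_measure, h]; simp
  · have h1 := lintegral_image_eq_lintegral_abs_det_fderiv_mul volume
      (f := fun z : ℂ => v + lin e1 e2 z) (f' := fun _ => lin e1 e2) measurableSet_Sd
      (fun x _ => ((lin e1 e2).hasFDerivAt.const_add v).hasFDerivWithinAt)
      (fun z _ w _ hzw => lin_injective h (add_left_cancel hzw))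
      (fun x => ENNReal.ofReal ‖x - v‖)
    change ∫⁻ x in tri v e1 e2, _ = _ at h1
    rw [h1]
    simp only [lin_det, add_sub_cancel_left, lin_apply]
    rw [lintegral_const_mul]
    · have h2 := lintegral_Sd (fun s l => ENNReal.ofReal ‖s • e1 + l • e2‖) (by
        have : Measurable fun p : ℝ × ℝ => ENNReal.ofReal ‖p.1 • e1 + p.2 • e2‖ := by fun_prop
        exact this)
      rw [h2]
      have h3 : ∫⁻ s in Icc (0 : ℝ) 1, ∫⁻ l in Icc (0 : ℝ) s, ENNReal.ofReal ‖s • e1 + l • e2‖ =
          ∫⁻ s in Icc (0 : ℝ) 1, ENNReal.ofReal (s ^ 2 * II e1 e2) := by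
        refine setLIntegral_congr_fun measurableSet_Icc fun s hs => ?_
        exact inner_int e1 e2 s hs.1
      rw [h3, outer_int, ENNReal.ofReal_mul (abs_nonneg _)]
    · fun_prop

end Pool.Agent.Q208.DI
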