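import Pool.Agent.Q208.DI.Tri1

/-!
# The triangle lemma
-/

set_option autoImplicit false

namespace Pool.Agent.Q208.DI

open MeasureTheory Set

/-- the constant `1/3 + (log 3)/4` -/
noncomputable def cst : ℝ := 1 / 3 + Real.log 3 / 4

theorem log_three_gt : 1 < Real.log 3 := by
  rw [Real.lt_log_iff_exp_lt (by norm_num)]
  exact Real.exp_one_lt_d9.trans (by norm_num)

theorem cst_gt : 7 / 12 < cst := by
  have := log_three_gt
  unfold cst
  linarith

theorem arsinh_val : Real.arsinh (1 / √3) = Real.log 3 / 2 := by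
  rw [Real.arsinh]
  have h3 : (√3) ^ 2 = 3 := Real.sq_sqrt (by norm_num)
  have hpos : 0 < √3 := Real.sqrt_pos.2 (by norm_num)
  have h1 : √(1 + (1 / √3) ^ 2) = 2 / √3 := by
    rw [Real.sqrt_eq_iff_mul_self_eq (by positivity) (by positivity)]
    field_simp
    rw [h3]; ring
  rw [h1]
  have h2 : 1 / √3 + 2 / √3 = √3 := by
    field_simp
    rw [h3]; norm_num
  rw [h2, Real.log_sqrt (by norm_num)]

theorem int_sqrt : ∫ m in (0 : ℝ)..1, √(3 + m ^ 2) = 3 * cst := by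
  have hs3 : (√3) ^ 2 = 3 := Real.sq_sqrt (by norm_num)
  have hpos : 0 < √3 := Real.sqrt_pos.2 (by norm_num)
  have hd : ∀ m : ℝ, HasDerivAt (fun m => m / 2 * √(3 + m ^ 2) + 3 / 2 * Real.arsinh (m / √3))
      (√(3 + m ^ 2)) m := by
    intro m
    have h1 : (0 : ℝ) < 3 + m ^ 2 := by positivity
    have hY : 0 < √(3 + m ^ 2) := Real.sqrt_pos.2 h1
    have hY2 : (√(3 + m ^ 2)) ^ 2 = 3 + m ^ 2 := Real.sq_sqrt h1.le
    have d1 : HasDerivAt (fun m : ℝ => √(3 + m ^ 2)) ((2 * m) / (2 * √(3 + m ^ 2))) m := by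
      have : HasDerivAt (fun m : ℝ => 3 + m ^ 2) (2 * m) m := by
        simpa using (hasDerivAt_pow 2 m).const_add 3
      exact this.sqrt h1.ne'
    have d2 : HasDerivAt (fun m : ℝ => m / 2) (1 / 2) m := (hasDerivAt_id m).div_const 2
    have d3 : HasDerivAt (fun m : ℝ => m / √3) (1 / √3) m := (hasDerivAt_id m).div_const _
    have d4 := (Real.hasDerivAt_arsinh (m / √3)).comp m d3
    have d5 := (d2.mul d1).add (d4.const_mul (3 / 2))
    have hY' : √(1 + (m / √3) ^ 2) = √(3 + m ^ 2) / √3 := by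
      rw [Real.sqrt_eq_iff_mul_self_eq (by positivity) (by positivity)]
      field_simp
      rw [hs3, hY2]
    refine d5.congr_deriv ?_
    rw [hY']
    field_simp
    rw [hY2]; ring
  rw [intervalIntegral.integral_eq_sub_of_hasDerivAt (fun m _ => hd m)
    ((by fun_prop : Continuous fun m : ℝ => √(3 + m ^ 2)).intervalIntegrable _ _)]
  have h4 : √(3 + 1 ^ 2 : ℝ) = 2 := by
    rw [Real.sqrt_eq_iff_mul_self_eq (by norm_num) (by norm_num)]; norm_num
  rw [h4, arsinh_val]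
  simp
  unfold cst; ring

theorem norm_sq_eq (z : ℂ) : ‖z‖ ^ 2 = dt z z := by
  rw [Complex.sq_norm, Complex.normSq_apply]; rfl

theorem norm_add_sq (e1 e2 : ℂ) (m : ℝ) :
    ‖e1 + m • e2‖ ^ 2 = ‖e1‖ ^ 2 + 2 * m * dt e1 e2 + m ^ 2 * ‖e2‖ ^ 2 := by
  simp only [norm_sq_eq, dt]
  simp
  ring

/-- the auxiliary constant -/
noncomputable def k1 : ℝ := ∫ m in (0 : ℝ)..1, (1 - m ^ 2) / √(3 + m ^ 2)

theorem k1_nonneg : 0 ≤ k1 := by
  unfold k1
  refine intervalIntegral.integral_nonneg zero_le_one fun m hm => ?_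
  have : m ^ 2 ≤ 1 := by nlinarith [hm.1, hm.2]
  have : 0 ≤ 1 - m ^ 2 := by linarith
  positivity

theorem cont_k1 : Continuous fun m : ℝ => (1 - m ^ 2) / √(3 + m ^ 2) := by
  refine Continuous.div (by fun_prop) (by fun_prop) fun m => ?_
  have : 0 < √(3 + m ^ 2) := Real.sqrt_pos.2 (by positivity)
  exact this.ne'

/-- the bound for right triangles, sharp for the angle `π / 6` -/
theorem II_right {e1 e2 : ℂ} {R : ℝ} (hR : 0 < R) (h0 : dt e1 e2 = 0)
    (h1 : ‖e1‖ ^ 2 + ‖e2‖ ^ 2 = R ^ 2) :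
    II e1 e2 ≤ R * (3 / 2 * cst - k1 * (‖e2‖ ^ 2 / R ^ 2 - 1 / 4)) := by
  have i1 : IntervalIntegrable (fun m : ℝ => R / 2 * √(3 + m ^ 2)) volume 0 1 :=
    (by fun_prop : Continuous fun m : ℝ => R / 2 * √(3 + m ^ 2)).intervalIntegrable _ _
  have i2 : IntervalIntegrable (fun m : ℝ => R * (‖e2‖ ^ 2 / R ^ 2 - 1 / 4) *
      ((1 - m ^ 2) / √(3 + m ^ 2))) volume 0 1 :=
    (continuous_const.mul cont_k1).intervalIntegrable _ _
  have e : R * (3 / 2 * cst - k1 * (‖e2‖ ^ 2 / R ^ 2 - 1 / 4)) =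
      ∫ m in (0 : ℝ)..1, (R / 2 * √(3 + m ^ 2) -
        R * (‖e2‖ ^ 2 / R ^ 2 - 1 / 4) * ((1 - m ^ 2) / √(3 + m ^ 2))) := by
    rw [intervalIntegral.integral_sub i1 i2, intervalIntegral.integral_const_mul,
      intervalIntegral.integral_const_mul, int_sqrt]
    unfold k1; ring
  rw [e]
  unfold II
  refine intervalIntegral.integral_mono_on zero_le_one
    ((by fun_prop : Continuous fun m : ℝ => ‖e1 + m • e2‖).intervalIntegrable _ _) (i1.sub i2) ?_
  · intro m hm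
    have hY1 : (0 : ℝ) < 3 + m ^ 2 := by positivity
    have hY : 0 < √(3 + m ^ 2) := Real.sqrt_pos.2 hY1
    have hY2 : (√(3 + m ^ 2)) ^ 2 = 3 + m ^ 2 := Real.sq_sqrt hY1.le
    set Y := √(3 + m ^ 2) with hYdef
    have hX := norm_add_sq e1 e2 m
    rw [h0] at hX
    set X := ‖e1 + m • e2‖ with hXdef
    have key : X * (R * Y) ≤ X ^ 2 + R ^ 2 * Y ^ 2 / 4 := by nlinarith [sq_nonneg (X - R * Y / 2)]
    have h2 : X ≤ (X ^ 2 + R ^ 2 * Y ^ 2 / 4) / (R * Y) := by
      rw [le_div_iff₀ (by positivity)]; exact key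
    refine h2.trans (le_of_eq ?_)
    have h3 : X ^ 2 = R ^ 2 - (1 - m ^ 2) * ‖e2‖ ^ 2 := by rw [hX, ← h1]; ring
    rw [h3]
    field_simp
    rw [hY2]
    ring

/-- the bound by second moments -/
theorem II_sq {e1 e2 : ℂ} {r : ℝ} (hr : 0 < r) :
    II e1 e2 ≤ (‖e1‖ ^ 2 + dt e1 e2 + ‖e2‖ ^ 2 / 3 + r ^ 2) / (2 * r) := by
  have e : (‖e1‖ ^ 2 + dt e1 e2 + ‖e2‖ ^ 2 / 3 + r ^ 2) / (2 * r) =
      ∫ m in (0 : ℝ)..1, (‖e1‖ ^ 2 + 2 * m * dt e1 e2 + m ^ 2 * ‖e2‖ ^ 2 + r ^ 2) / (2 * r) := by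
    have e1' : ∫ m in (0 : ℝ)..1, (‖e1‖ ^ 2 + 2 * m * dt e1 e2 + m ^ 2 * ‖e2‖ ^ 2 + r ^ 2) =
        ‖e1‖ ^ 2 + dt e1 e2 + ‖e2‖ ^ 2 / 3 + r ^ 2 := by
      have hd : ∀ m : ℝ, HasDerivAt (fun m : ℝ => ‖e1‖ ^ 2 * m + m ^ 2 * dt e1 e2 +
          m ^ 3 / 3 * ‖e2‖ ^ 2 + r ^ 2 * m)
          (‖e1‖ ^ 2 + 2 * m * dt e1 e2 + m ^ 2 * ‖e2‖ ^ 2 + r ^ 2) m := by
        intro m
        have d1 : HasDerivAt (fun m : ℝ => ‖e1‖ ^ 2 * m) (‖e1‖ ^ 2) m := by
          simpa using (hasDerivAt_id m).const_mul (‖e1‖ ^ 2)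
        have d2 : HasDerivAt (fun m : ℝ => m ^ 2 * dt e1 e2) (2 * m * dt e1 e2) m := by
          simpa using (hasDerivAt_pow 2 m).mul_const (dt e1 e2)
        have d3 : HasDerivAt (fun m : ℝ => m ^ 3 / 3 * ‖e2‖ ^ 2) (m ^ 2 * ‖e2‖ ^ 2) m := by
          have := ((hasDerivAt_pow 3 m).div_const 3).mul_const (‖e2‖ ^ 2)
          refine this.congr_deriv ?_
          push_cast
          ring
        have d4 : HasDerivAt (fun m : ℝ => r ^ 2 * m) (r ^ 2) m := by
          simpa using (hasDerivAt_id m).const_mul (r ^ 2)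
        exact ((d1.add d2).add d3).add d4
      rw [intervalIntegral.integral_eq_sub_of_hasDerivAt (fun m _ => hd m)
        ((by fun_prop : Continuous fun m : ℝ => (‖e1‖ ^ 2 + 2 * m * dt e1 e2 +
          m ^ 2 * ‖e2‖ ^ 2 + r ^ 2)).intervalIntegrable _ _)]
      simp
      ring
    rw [intervalIntegral.integral_div, e1']
  rw [e]
  unfold II
  refine intervalIntegral.integral_mono_on zero_le_one
    ((by fun_prop : Continuous fun m : ℝ => ‖e1 + m • e2‖).intervalIntegrable _ _) ?_ ?_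
  · exact ((by fun_prop : Continuous fun m : ℝ => (‖e1‖ ^ 2 + 2 * m * dt e1 e2 +
      m ^ 2 * ‖e2‖ ^ 2 + r ^ 2) / (2 * r)).intervalIntegrable _ _)
  · intro m hm
    rw [← norm_add_sq, le_div_iff₀ (by positivity)]
    nlinarith [sq_nonneg (‖e1 + m • e2‖ - r)]

/-- the midpoint -/
noncomputable def mid (u v : ℂ) : ℂ := (1 / 2 : ℝ) • (u + v)

theorem mem_piece {P u v x : ℂ} {t p q : ℝ} (ht : 0 ≤ t) (hq : 0 ≤ q) (hqp : q ≤ p)
    (hs : t + p + q = 1) (hx : x = t • P + p • u + q • v) :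
    x ∈ tri u (mid u v - u) (P - mid u v) := by
  rw [mem_tri]
  refine ⟨1 - (p - q), t, ht, by linarith, by linarith, ?_⟩
  rw [hx]
  unfold mid
  have : p = 1 - t - q := by linarith
  subst this
  simp only [smul_sub, smul_add, sub_smul, add_smul, one_smul, smul_smul]
  module

theorem cover {V : Fin 3 → ℂ} {w x : Fin 3 → ℝ} (hw : ∀ i, 0 ≤ w i) (hws : ∑ i, w i = 1)
    (hx : ∀ i, 0 ≤ x i) (hxs : ∑ i, x i = 1) :
    ∃ i j, ∑ l, x l • V l ∈ tri (V i) (mid (V i) (V j) - V i) (∑ l, w l • V l - mid (V i) (V j)) := by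
  have hne : (Finset.univ.filter fun i => 0 < w i).Nonempty := by
    by_contra h
    rw [Finset.not_nonempty_iff_eq_empty, Finset.filter_eq_empty_iff] at h
    have : ∑ i, w i ≤ 0 := Finset.sum_nonpos fun i hi => not_lt.1 (h hi)
    linarith
  obtain ⟨k, hk, hkmin⟩ := Finset.exists_min_image _ (fun i => x i / w i) hne
  rw [Finset.mem_filter] at hk
  have hwk := hk.2
  set t := x k / w k with ht
  have ht0 : 0 ≤ t := div_nonneg (hx k) (hw k)
  have htk : x k = t * w k := by rw [ht, div_mul_cancel₀ _ hwk.ne']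
  have hge : ∀ i, 0 ≤ x i - t * w i := by
    intro i
    by_cases hi : 0 < w i
    · have := hkmin i (by simp [hi])
      rw [le_div_iff₀ hi] at this
      linarith
    · have : w i = 0 := le_antisymm (not_lt.1 hi) (hw i)
      rw [this]; simp; exact hx i
  set P := ∑ l, w l • V l with hP
  -- the two other indices
  have main : ∀ i j, (∀ l, l = k ∨ l = i ∨ l = j) → i ≠ j → i ≠ k → j ≠ k →
      ∃ i j, ∑ l, x l • V l ∈ tri (V i) (mid (V i) (V j) - V i) (P - mid (V i) (V j)) := by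
    intro i j hall hij hik hjk
    have hsum : ∀ f : Fin 3 → ℝ, ∑ l, f l = f k + f i + f j := by
      intro f
      have : (Finset.univ : Finset (Fin 3)) = {k, i, j} := by
        ext l
        simp [hall l]
      rw [this, Finset.sum_insert (by simp [Ne.symm hik, Ne.symm hjk]),
        Finset.sum_insert (by simp [hij]), Finset.sum_singleton]
      ring
    have hsumC : ∀ f : Fin 3 → ℂ, ∑ l, f l = f k + f i + f j := by
      intro f
      have : (Finset.univ : Finset (Fin 3)) = {k, i, j} := by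
        ext l
        simp [hall l]
      rw [this, Finset.sum_insert (by simp [Ne.symm hik, Ne.symm hjk]),
        Finset.sum_insert (by simp [hij]), Finset.sum_singleton]
      ring
    rw [hsum] at hws hxs
    have e : ∑ l, x l • V l = t • P + (x i - t * w i) • V i + (x j - t * w j) • V j := by
      rw [hP, hsumC, hsumC, htk]
      simp only [smul_add, smul_smul, sub_smul]
      ring
    have hs : t + (x i - t * w i) + (x j - t * w j) = 1 := by
      have : x k + x i + x j = 1 := hxs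
      have h2 : w k + w i + w j = 1 := hws
      rw [htk] at this
      linear_combination this - t * h2
    rcases le_total (x j - t * w j) (x i - t * w i) with h | h
    · exact ⟨i, j, mem_piece ht0 (hge j) h hs e⟩
    · exact ⟨j, i, mem_piece ht0 (hge i) h (by linarith) (by rw [e]; ring)⟩
  fin_cases k
  · exact main 1 2 (by decide) (by decide) (by decide) (by decide)
  · exact main 0 2 (by decide) (by decide) (by decide) (by decide)
  · exact main 0 1 (by decide) (by decide) (by decide) (by decide)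

theorem cr_piece (P u v : ℂ) : cr (mid u v - u) (P - mid u v) = cr (v - u) (P - u) / 2 := by
  unfold cr mid
  simp
  ring

/-- the set of convex combinations -/
def hull (V : Fin 3 → ℂ) : Set ℂ :=
  {z | ∃ x : Fin 3 → ℝ, (∀ i, 0 ≤ x i) ∧ ∑ i, x i = 1 ∧ z = ∑ i, x i • V i}

theorem hull_le (V : Fin 3 → ℂ) {w : Fin 3 → ℝ} (hw : ∀ i, 0 ≤ w i) (hws : ∑ i, w i = 1)
    (g : ℂ → ℝ) (hg : ∀ i x, g x ≤ ‖x - V i‖) :
    ∫⁻ z in hull V, ENNReal.ofReal (g z) ≤ ∑ i, ∑ j, ENNReal.ofReal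
      (|cr (V j - V i) (∑ l, w l • V l - V i)| / 2 *
        (1 / 3 * II (mid (V i) (V j) - V i) (∑ l, w l • V l - mid (V i) (V j)))) := by
  set P := ∑ l, w l • V l with hP
  have hsub : hull V ⊆ ⋃ p : Fin 3 × Fin 3,
      tri (V p.1) (mid (V p.1) (V p.2) - V p.1) (P - mid (V p.1) (V p.2)) := by
    rintro _ ⟨x, h1, h2, rfl⟩
    obtain ⟨i, j, h⟩ := cover (V := V) hw hws h1 h2
    exact mem_iUnion.2 ⟨(i, j), h⟩
  calc ∫⁻ z in hull V, ENNReal.ofReal (g z) ≤ _ := lintegral_mono_set hsub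
    _ ≤ _ := lintegral_iUnion_le _ _
    _ = ∑ p : Fin 3 × Fin 3, _ := tsum_fintype _
    _ ≤ ∑ p : Fin 3 × Fin 3, ENNReal.ofReal
      (|cr (V p.2 - V p.1) (P - V p.1)| / 2 *
        (1 / 3 * II (mid (V p.1) (V p.2) - V p.1) (P - mid (V p.1) (V p.2)))) := by
        refine Finset.sum_le_sum fun p _ => ?_
        refine (lintegral_mono (g := fun z => ENNReal.ofReal ‖z - V p.1‖) fun z =>
          ENNReal.ofReal_le_ofReal (hg p.1 z)).trans ?_
        rw [lintegral_tri, cr_piece, abs_div, abs_two]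
    _ = _ := by rw [Fintype.sum_prod_type]

end Pool.Agent.Q208.DI
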