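import Pool.Agent.Q208.DI.Tri2

/-!
# The triangle lemma: mean distance to the nearest vertex
-/

set_option autoImplicit false

namespace Pool.Agent.Q208.DI

open MeasureTheory Set

theorem hull_le' {a b d : ℂ} (hD : 0 < cr (b - a) (d - a)) {w0 w1 w2 : ℝ} (h0 : 0 ≤ w0)
    (h1 : 0 ≤ w1) (h2 : 0 ≤ w2) (hs : w0 + w1 + w2 = 1) {P : ℂ} (hP : P = w0 • a + w1 • b + w2 • d)
    (g : ℂ → ℝ) (hga : ∀ x, g x ≤ ‖x - a‖) (hgb : ∀ x, g x ≤ ‖x - b‖) (hgd : ∀ x, g x ≤ ‖x - d‖) :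
    ∫⁻ z in hull ![a, b, d], ENNReal.ofReal (g z) ≤ ENNReal.ofReal
      (cr (b - a) (d - a) / 6 * (w2 * (II (mid a b - a) (P - mid a b) + II (mid b a - b) (P - mid b a))
        + w1 * (II (mid a d - a) (P - mid a d) + II (mid d a - d) (P - mid d a))
        + w0 * (II (mid b d - b) (P - mid b d) + II (mid d b - d) (P - mid d b)))) := by
  set D := cr (b - a) (d - a) with hDdef
  have hP' : ∑ l, (![w0, w1, w2] : Fin 3 → ℝ) l • (![a, b, d] : Fin 3 → ℂ) l = P := by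
    rw [Fin.sum_univ_three, hP]; rfl
  have key := hull_le ![a, b, d] (w := ![w0, w1, w2]) (by
      intro i; fin_cases i
      · exact h0
      · exact h1
      · exact h2) (by rw [Fin.sum_univ_three]; exact hs) g (by
      intro i x; fin_cases i
      · exact hga x
      · exact hgb x
      · exact hgd x)
  rw [hP'] at key
  refine key.trans (le_of_eq ?_)
  have e1 : cr (b - a) (P - a) = w2 * D := by
    rw [hP, hDdef]; unfold cr; simp
    have : w0 = 1 - w1 - w2 := by linarith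
    subst this; ring
  have e2 : cr (d - a) (P - a) = -(w1 * D) := by
    rw [hP, hDdef]; unfold cr; simp
    have : w0 = 1 - w1 - w2 := by linarith
    subst this; ring
  have e3 : cr (a - b) (P - b) = -(w2 * D) := by
    rw [hP, hDdef]; unfold cr; simp
    have : w0 = 1 - w1 - w2 := by linarith
    subst this; ring
  have e4 : cr (d - b) (P - b) = w0 * D := by
    rw [hP, hDdef]; unfold cr; simp
    have : w0 = 1 - w1 - w2 := by linarith
    subst this; ring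
  have e5 : cr (a - d) (P - d) = w1 * D := by
    rw [hP, hDdef]; unfold cr; simp
    have : w0 = 1 - w1 - w2 := by linarith
    subst this; ring
  have e6 : cr (b - d) (P - d) = -(w0 * D) := by
    rw [hP, hDdef]; unfold cr; simp
    have : w0 = 1 - w1 - w2 := by linarith
    subst this; ring
  have z : ∀ x : ℂ, cr 0 x = 0 := by intro x; unfold cr; simp
  have a1 : |w0 * D| = w0 * D := abs_of_nonneg (mul_nonneg h0 hD.le)
  have a2 : |w1 * D| = w1 * D := abs_of_nonneg (mul_nonneg h1 hD.le)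
  have a3 : |w2 * D| = w2 * D := abs_of_nonneg (mul_nonneg h2 hD.le)
  have n : ∀ u v : ℂ, 0 ≤ II u v := II_nonneg
  simp only [Fin.sum_univ_three, Matrix.cons_val_zero, Matrix.cons_val_one, Matrix.cons_val,
    sub_self, z, e1, e2, e3, e4, e5, e6, abs_neg, a1, a2, a3, abs_zero, zero_div, zero_mul,
    ENNReal.ofReal_zero, zero_add, add_zero]
  have m0 := mul_nonneg h0 hD.le
  have m1 := mul_nonneg h1 hD.le
  have m2 := mul_nonneg h2 hD.le
  have b1 := n (mid a b - a) (P - mid a b)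
  have b2 := n (mid b a - b) (P - mid b a)
  have b3 := n (mid a d - a) (P - mid a d)
  have b4 := n (mid d a - d) (P - mid d a)
  have b5 := n (mid b d - b) (P - mid b d)
  have b6 := n (mid d b - d) (P - mid d b)
  rw [← ENNReal.ofReal_add (by positivity) (by positivity),
    ← ENNReal.ofReal_add (by positivity) (by positivity),
    ← ENNReal.ofReal_add (by positivity) (by positivity),
    ← ENNReal.ofReal_add (by positivity) (by positivity),
    ← ENNReal.ofReal_add (by positivity) (by positivity)]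
  congr 1
  ring

theorem hull_rot (a b d : ℂ) : hull ![a, b, d] = hull ![b, d, a] := by
  ext z
  constructor
  · rintro ⟨x, h1, h2, rfl⟩
    refine ⟨![x 1, x 2, x 0], ?_, ?_, ?_⟩
    · intro i; fin_cases i
      · exact h1 1
      · exact h1 2
      · exact h1 0
    · rw [Fin.sum_univ_three] at h2 ⊢
      show x 1 + x 2 + x 0 = 1
      linarith
    · rw [Fin.sum_univ_three, Fin.sum_univ_three]
      show x 0 • a + x 1 • b + x 2 • d = x 1 • b + x 2 • d + x 0 • a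
      ring
  · rintro ⟨x, h1, h2, rfl⟩
    refine ⟨![x 2, x 0, x 1], ?_, ?_, ?_⟩
    · intro i; fin_cases i
      · exact h1 2
      · exact h1 0
      · exact h1 1
    · rw [Fin.sum_univ_three] at h2 ⊢
      show x 2 + x 0 + x 1 = 1
      linarith
    · rw [Fin.sum_univ_three, Fin.sum_univ_three]
      show x 0 • b + x 1 • d + x 2 • a = x 2 • a + x 0 • b + x 1 • d
      ring

theorem cr_rot (a b d : ℂ) : cr (d - b) (a - b) = cr (b - a) (d - a) := by
  unfold cr; simp; ring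

theorem pos_R {a b d o : ℂ} {R : ℝ} (hD : 0 < cr (b - a) (d - a)) (ha : ‖a - o‖ ≤ R)
    (hb : ‖b - o‖ ≤ R) : 0 < R := by
  by_contra hR
  have h1 : a = o := by
    have : ‖a - o‖ = 0 := le_antisymm (ha.trans (not_lt.1 hR)) (norm_nonneg _)
    rwa [norm_eq_zero, sub_eq_zero] at this
  have h2 : b = o := by
    have : ‖b - o‖ = 0 := le_antisymm (hb.trans (not_lt.1 hR)) (norm_nonneg _)
    rwa [norm_eq_zero, sub_eq_zero] at this
  rw [h1, h2] at hD
  unfold cr at hD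
  simp at hD

/-- obtuse and right triangles -/
theorem obtuse {a b d o : ℂ} {R : ℝ} (hD : 0 < cr (b - a) (d - a)) (hob : dt (b - a) (d - a) ≤ 0)
    (ha : ‖a - o‖ ≤ R) (hb : ‖b - o‖ ≤ R) (hd : ‖d - o‖ ≤ R)
    (g : ℂ → ℝ) (hga : ∀ x, g x ≤ ‖x - a‖) (hgb : ∀ x, g x ≤ ‖x - b‖) (hgd : ∀ x, g x ≤ ‖x - d‖) :
    ∫⁻ z in hull ![a, b, d], ENNReal.ofReal (g z) ≤
      ENNReal.ofReal (cst * R * (cr (b - a) (d - a) / 2)) := by
  have hR := pos_R hD ha hb
  refine (hull_le' hD (w0 := 0) (w1 := 1 / 2) (w2 := 1 / 2) le_rfl (by norm_num) (by norm_num)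
    (by norm_num) (P := mid b d) (by unfold mid; simp) g hga hgb hgd).trans
    (ENNReal.ofReal_le_ofReal ?_)
  have hr : 0 < 4 / 5 * R := by positivity
  have i1 := II_sq (e1 := mid a b - a) (e2 := mid b d - mid a b) hr
  have i2 := II_sq (e1 := mid b a - b) (e2 := mid b d - mid b a) hr
  have i3 := II_sq (e1 := mid a d - a) (e2 := mid b d - mid a d) hr
  have i4 := II_sq (e1 := mid d a - d) (e2 := mid b d - mid d a) hr
  have hbd : ‖b - d‖ ^ 2 ≤ 4 * R ^ 2 := by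
    have : ‖b - d‖ ≤ 2 * R := by
      calc ‖b - d‖ = ‖(b - o) - (d - o)‖ := by congr 1; ring
        _ ≤ ‖b - o‖ + ‖d - o‖ := norm_sub_le _ _
        _ ≤ 2 * R := by linarith
    nlinarith [norm_nonneg (b - d)]
  have hsum : ‖b - a‖ ^ 2 + ‖d - a‖ ^ 2 ≤ 4 * R ^ 2 := by
    refine le_trans ?_ hbd
    simp only [norm_sq_eq, dt] at hob ⊢
    simp at hob ⊢
    nlinarith
  have key : (‖mid a b - a‖ ^ 2 + dt (mid a b - a) (mid b d - mid a b) +
        ‖mid b d - mid a b‖ ^ 2 / 3 + (4 / 5 * R) ^ 2) +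
      (‖mid b a - b‖ ^ 2 + dt (mid b a - b) (mid b d - mid b a) +
        ‖mid b d - mid b a‖ ^ 2 / 3 + (4 / 5 * R) ^ 2) +
      (‖mid a d - a‖ ^ 2 + dt (mid a d - a) (mid b d - mid a d) +
        ‖mid b d - mid a d‖ ^ 2 / 3 + (4 / 5 * R) ^ 2) +
      (‖mid d a - d‖ ^ 2 + dt (mid d a - d) (mid b d - mid d a) +
        ‖mid b d - mid d a‖ ^ 2 / 3 + (4 / 5 * R) ^ 2) =
      2 / 3 * (‖b - a‖ ^ 2 + ‖d - a‖ ^ 2) + 4 * (4 / 5 * R) ^ 2 := by
    simp only [norm_sq_eq, dt, mid]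
    simp
    ring
  have htot : (II (mid a b - a) (mid b d - mid a b) + II (mid b a - b) (mid b d - mid b a)) +
      (II (mid a d - a) (mid b d - mid a d) + II (mid d a - d) (mid b d - mid d a)) ≤
      (2 / 3 * (4 * R ^ 2) + 4 * (4 / 5 * R) ^ 2) / (2 * (4 / 5 * R)) := by
    refine (add_le_add (add_le_add i1 i2) (add_le_add i3 i4)).trans ?_
    rw [← add_div, ← add_div, ← add_div]
    refine div_le_div_of_nonneg_right ?_ (by positivity)
    linarith
  have hval : (2 / 3 * (4 * R ^ 2) + 4 * (4 / 5 * R) ^ 2) / (2 * (4 / 5 * R)) = 49 / 15 * R := by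
    field_simp
    ring
  rw [hval] at htot
  have hc := cst_gt
  set D := cr (b - a) (d - a)
  have : D / 6 * (1 / 2 * (II (mid a b - a) (mid b d - mid a b) + II (mid b a - b) (mid b d - mid b a)) +
      1 / 2 * (II (mid a d - a) (mid b d - mid a d) + II (mid d a - d) (mid b d - mid d a)) +
      0 * (II (mid b d - b) (mid b d - mid b d) + II (mid d b - d) (mid b d - mid d b))) ≤
      D / 12 * (49 / 15 * R) := by
    have : D / 6 * (1 / 2 * (II (mid a b - a) (mid b d - mid a b) + II (mid b a - b) (mid b d - mid b a)) +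
      1 / 2 * (II (mid a d - a) (mid b d - mid a d) + II (mid d a - d) (mid b d - mid d a)) +
      0 * (II (mid b d - b) (mid b d - mid b d) + II (mid d b - d) (mid b d - mid d b))) =
      D / 12 * ((II (mid a b - a) (mid b d - mid a b) + II (mid b a - b) (mid b d - mid b a)) +
      (II (mid a d - a) (mid b d - mid a d) + II (mid d a - d) (mid b d - mid d a))) := by ring
    rw [this]
    exact mul_le_mul_of_nonneg_left htot (by positivity)
  refine this.trans ?_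
  have h5 : 0 < D * R := mul_pos hD hR
  nlinarith

theorem perp {P u v : ℂ} (h : ‖P - u‖ ^ 2 = ‖P - v‖ ^ 2) :
    dt (mid u v - u) (P - mid u v) = 0 ∧
      ‖mid u v - u‖ ^ 2 + ‖P - mid u v‖ ^ 2 = ‖P - u‖ ^ 2 := by
  simp only [norm_sq_eq, dt, mid] at h ⊢
  simp at h ⊢
  constructor
  · linear_combination (1 / 4) * h
  · linear_combination (-1 / 2) * h

/-- acute triangles -/
theorem acute_core {a b d o P : ℂ} {R Rc w0 w1 w2 : ℝ} (hD : 0 < cr (b - a) (d - a))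
    (ha : ‖a - o‖ ≤ R) (hb : ‖b - o‖ ≤ R) (hd : ‖d - o‖ ≤ R) (h0 : 0 ≤ w0)
    (h1 : 0 ≤ w1) (h2 : 0 ≤ w2) (hs : w0 + w1 + w2 = 1) (hP : P = w0 • a + w1 • b + w2 • d)
    (hRc : 0 < Rc) (hPa : ‖P - a‖ ^ 2 = Rc ^ 2) (hPb : ‖P - b‖ ^ 2 = Rc ^ 2)
    (hPd : ‖P - d‖ ^ 2 = Rc ^ 2)
    (g : ℂ → ℝ) (hga : ∀ x, g x ≤ ‖x - a‖) (hgb : ∀ x, g x ≤ ‖x - b‖) (hgd : ∀ x, g x ≤ ‖x - d‖) :
    ∫⁻ z in hull ![a, b, d], ENNReal.ofReal (g z) ≤
      ENNReal.ofReal (cst * R * (cr (b - a) (d - a) / 2)) := by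
  refine (hull_le' hD h0 h1 h2 hs hP g hga hgb hgd).trans (ENNReal.ofReal_le_ofReal ?_)
  have hR := pos_R hD ha hb
  have p1 := perp (P := P) (u := a) (v := b) (by rw [hPa, hPb])
  have p2 := perp (P := P) (u := b) (v := a) (by rw [hPa, hPb])
  have p3 := perp (P := P) (u := a) (v := d) (by rw [hPa, hPd])
  have p4 := perp (P := P) (u := d) (v := a) (by rw [hPa, hPd])
  have p5 := perp (P := P) (u := b) (v := d) (by rw [hPb, hPd])
  have p6 := perp (P := P) (u := d) (v := b) (by rw [hPb, hPd])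
  have i1 := II_right hRc p1.1 (by rw [p1.2, hPa])
  have i2 := II_right hRc p2.1 (by rw [p2.2, hPb])
  have i3 := II_right hRc p3.1 (by rw [p3.2, hPa])
  have i4 := II_right hRc p4.1 (by rw [p4.2, hPd])
  have i5 := II_right hRc p5.1 (by rw [p5.2, hPb])
  have i6 := II_right hRc p6.1 (by rw [p6.2, hPd])
  have m1 : mid b a = mid a b := by unfold mid; rw [add_comm]
  have m2 : mid d a = mid a d := by unfold mid; rw [add_comm]
  have m3 : mid d b = mid b d := by unfold mid; rw [add_comm]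
  rw [m1] at i2 ⊢
  rw [m2] at i4 ⊢
  rw [m3] at i6 ⊢
  set D := cr (b - a) (d - a) with hDdef
  -- the sum of the weighted squares
  have hz : Rc ^ 2 / 4 ≤ w2 * ‖P - mid a b‖ ^ 2 + w1 * ‖P - mid a d‖ ^ 2 + w0 * ‖P - mid b d‖ ^ 2 := by
    have e : w2 * ‖P - mid a b‖ ^ 2 + w1 * ‖P - mid a d‖ ^ 2 + w0 * ‖P - mid b d‖ ^ 2 =
        (‖(a - P) + (b - P) + (d - P)‖ ^ 2 + (w0 * ‖P - a‖ ^ 2 + w1 * ‖P - b‖ ^ 2 +
          w2 * ‖P - d‖ ^ 2)) / 4 := by
      have r1 : P.re = w0 * a.re + w1 * b.re + w2 * d.re := by rw [hP]; simp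
      have r2 : P.im = w0 * a.im + w1 * b.im + w2 * d.im := by rw [hP]; simp
      have hw : w0 = 1 - w1 - w2 := by linarith
      simp only [norm_sq_eq, dt, mid]
      simp
      rw [r1, r2, hw]
      ring
    rw [e, hPa, hPb, hPd]
    have : w0 * Rc ^ 2 + w1 * Rc ^ 2 + w2 * Rc ^ 2 = Rc ^ 2 := by
      rw [← add_mul, ← add_mul, hs, one_mul]
    rw [this]
    have := sq_nonneg ‖(a - P) + (b - P) + (d - P)‖
    linarith
  have hRcR : Rc ≤ R := by
    have e : w0 * ‖a - o‖ ^ 2 + w1 * ‖b - o‖ ^ 2 + w2 * ‖d - o‖ ^ 2 = Rc ^ 2 + ‖P - o‖ ^ 2 := by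
      have : w0 * ‖a - o‖ ^ 2 + w1 * ‖b - o‖ ^ 2 + w2 * ‖d - o‖ ^ 2 =
          (w0 * ‖P - a‖ ^ 2 + w1 * ‖P - b‖ ^ 2 + w2 * ‖P - d‖ ^ 2) + ‖P - o‖ ^ 2 := by
        have r1 : P.re = w0 * a.re + w1 * b.re + w2 * d.re := by rw [hP]; simp
        have r2 : P.im = w0 * a.im + w1 * b.im + w2 * d.im := by rw [hP]; simp
        have hw : w0 = 1 - w1 - w2 := by linarith
        simp only [norm_sq_eq, dt]
        simp
        rw [r1, r2, hw]
        ring
      rw [this, hPa, hPb, hPd, ← add_mul, ← add_mul, hs, one_mul]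
    have e2 : w0 * ‖a - o‖ ^ 2 + w1 * ‖b - o‖ ^ 2 + w2 * ‖d - o‖ ^ 2 ≤ R ^ 2 := by
      have q1 : ‖a - o‖ ^ 2 ≤ R ^ 2 := by nlinarith [norm_nonneg (a - o)]
      have q2 : ‖b - o‖ ^ 2 ≤ R ^ 2 := by nlinarith [norm_nonneg (b - o)]
      have q3 : ‖d - o‖ ^ 2 ≤ R ^ 2 := by nlinarith [norm_nonneg (d - o)]
      calc _ ≤ w0 * R ^ 2 + w1 * R ^ 2 + w2 * R ^ 2 := by
            gcongr
        _ = R ^ 2 := by rw [← add_mul, ← add_mul, hs, one_mul]
    have e3 : Rc ^ 2 ≤ R ^ 2 := by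
      have := sq_nonneg ‖P - o‖
      linarith
    exact (sq_le_sq₀ hRc.le hR.le).1 e3
  have hk := k1_nonneg
  have hc := cst_gt
  have step1 : D / 6 * (w2 * (II (mid a b - a) (P - mid a b) + II (mid a b - b) (P - mid a b))
        + w1 * (II (mid a d - a) (P - mid a d) + II (mid a d - d) (P - mid a d))
        + w0 * (II (mid b d - b) (P - mid b d) + II (mid b d - d) (P - mid b d))) ≤
      D / 6 * (w2 * (2 * (Rc * (3 / 2 * cst - k1 * (‖P - mid a b‖ ^ 2 / Rc ^ 2 - 1 / 4))))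
        + w1 * (2 * (Rc * (3 / 2 * cst - k1 * (‖P - mid a d‖ ^ 2 / Rc ^ 2 - 1 / 4))))
        + w0 * (2 * (Rc * (3 / 2 * cst - k1 * (‖P - mid b d‖ ^ 2 / Rc ^ 2 - 1 / 4))))) := by
    have : 0 ≤ D / 6 := by positivity
    gcongr
    · linarith
    · linarith
    · linarith
  refine step1.trans ?_
  have step2 : D / 6 * (w2 * (2 * (Rc * (3 / 2 * cst - k1 * (‖P - mid a b‖ ^ 2 / Rc ^ 2 - 1 / 4))))
        + w1 * (2 * (Rc * (3 / 2 * cst - k1 * (‖P - mid a d‖ ^ 2 / Rc ^ 2 - 1 / 4))))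
        + w0 * (2 * (Rc * (3 / 2 * cst - k1 * (‖P - mid b d‖ ^ 2 / Rc ^ 2 - 1 / 4))))) =
      cst * Rc * (D / 2) - D / 3 * Rc * k1 * ((w2 * ‖P - mid a b‖ ^ 2 + w1 * ‖P - mid a d‖ ^ 2 +
        w0 * ‖P - mid b d‖ ^ 2) / Rc ^ 2 - 1 / 4) := by
    have hw : w0 = 1 - w1 - w2 := by linarith
    subst hw
    field_simp
    ring
  rw [step2]
  have h6 : 0 ≤ (w2 * ‖P - mid a b‖ ^ 2 + w1 * ‖P - mid a d‖ ^ 2 +
        w0 * ‖P - mid b d‖ ^ 2) / Rc ^ 2 - 1 / 4 := by
    rw [sub_nonneg, le_div_iff₀ (by positivity)]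
    linarith
  have h7 : 0 ≤ D / 3 * Rc * k1 * ((w2 * ‖P - mid a b‖ ^ 2 + w1 * ‖P - mid a d‖ ^ 2 +
        w0 * ‖P - mid b d‖ ^ 2) / Rc ^ 2 - 1 / 4) := by positivity
  have h8 : cst * Rc * (D / 2) ≤ cst * R * (D / 2) := by
    have : 0 ≤ cst := by linarith
    gcongr
  linarith

/-- **The triangle lemma.** -/
theorem tri_bound {a b d o : ℂ} {R : ℝ} (hD : 0 < cr (b - a) (d - a))
    (ha : ‖a - o‖ ≤ R) (hb : ‖b - o‖ ≤ R) (hd : ‖d - o‖ ≤ R)
    (g : ℂ → ℝ) (hga : ∀ x, g x ≤ ‖x - a‖) (hgb : ∀ x, g x ≤ ‖x - b‖) (hgd : ∀ x, g x ≤ ‖x - d‖) :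
    ∫⁻ z in hull ![a, b, d], ENNReal.ofReal (g z) ≤
      ENNReal.ofReal (cst * R * (cr (b - a) (d - a) / 2)) := by
  by_cases c1 : dt (b - a) (d - a) ≤ 0
  · exact obtuse hD c1 ha hb hd g hga hgb hgd
  by_cases c2 : dt (d - b) (a - b) ≤ 0
  · rw [hull_rot, ← cr_rot]
    exact obtuse (by rw [cr_rot]; exact hD) c2 hb hd ha g hgb hgd hga
  by_cases c3 : dt (a - d) (b - d) ≤ 0
  · rw [hull_rot, hull_rot, ← cr_rot, ← cr_rot]
    exact obtuse (by rw [cr_rot, cr_rot]; exact hD) c3 hd ha hb g hgd hga hgb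
  push Not at c1 c2 c3
  -- the circumcentre
  set A := dt (b - a) (b - a) with hA
  set C := dt (d - a) (d - a) with hC
  set G := dt (b - a) (d - a) with hG
  set D := cr (b - a) (d - a) with hDdef
  have hD2 : D ^ 2 = A * C - G ^ 2 := by
    rw [hDdef, hA, hC, hG]; unfold cr dt; ring
  have hAG : 0 < A - G := by
    have : dt (d - b) (a - b) = A - G := by rw [hA, hG]; unfold dt; simp; ring
    rw [← this]; exact c2
  have hCG : 0 < C - G := by
    have : dt (a - d) (b - d) = C - G := by rw [hC, hG]; unfold dt; simp; ring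
    rw [← this]; exact c3
  have hA0 : 0 < A := by linarith
  have hC0 : 0 < C := by linarith
  set w1 := C * (A - G) / (2 * D ^ 2) with hw1
  set w2 := A * (C - G) / (2 * D ^ 2) with hw2
  set w0 := (A + C - 2 * G) * G / (2 * D ^ 2) with hw0
  have hs : w0 + w1 + w2 = 1 := by
    rw [hw0, hw1, hw2]
    have : (0 : ℝ) < 2 * D ^ 2 := by positivity
    rw [← add_div, ← add_div, div_eq_one_iff_eq this.ne', hD2]
    ring
  have n0 : 0 ≤ w0 := by rw [hw0]; have : 0 ≤ A + C - 2 * G := by linarith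
                         positivity
  have n1 : 0 ≤ w1 := by rw [hw1]; positivity
  have n2 : 0 ≤ w2 := by rw [hw2]; positivity
  have q1 : w1 * A + w2 * G = A / 2 := by
    rw [hw1, hw2]
    have : (0 : ℝ) < 2 * D ^ 2 := by positivity
    rw [div_mul_eq_mul_div, div_mul_eq_mul_div, ← add_div, div_eq_iff this.ne', hD2]
    ring
  have q2 : w1 * G + w2 * C = C / 2 := by
    rw [hw1, hw2]
    have : (0 : ℝ) < 2 * D ^ 2 := by positivity
    rw [div_mul_eq_mul_div, div_mul_eq_mul_div, ← add_div, div_eq_iff this.ne', hD2]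
    ring
  set P := w0 • a + w1 • b + w2 • d with hP
  have hPa : P - a = w1 • (b - a) + w2 • (d - a) := by
    rw [hP]
    have : w0 = 1 - w1 - w2 := by linarith
    rw [this]
    simp only [smul_sub, sub_smul, one_smul]
    ring
  have t1 : dt (P - a) (b - a) = A / 2 := by
    rw [← q1, hPa, hA, hG]; unfold dt; simp; ring
  have t2 : dt (P - a) (d - a) = C / 2 := by
    rw [← q2, hPa, hC, hG]; unfold dt; simp; ring
  have eb : ‖P - b‖ ^ 2 = ‖P - a‖ ^ 2 := by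
    have : ‖P - b‖ ^ 2 = ‖P - a‖ ^ 2 - 2 * dt (P - a) (b - a) + A := by
      simp only [norm_sq_eq, hA, dt]; simp; ring
    rw [this, t1]; ring
  have ed : ‖P - d‖ ^ 2 = ‖P - a‖ ^ 2 := by
    have : ‖P - d‖ ^ 2 = ‖P - a‖ ^ 2 - 2 * dt (P - a) (d - a) + C := by
      simp only [norm_sq_eq, hC, dt]; simp; ring
    rw [this, t2]; ring
  have hRc : 0 < ‖P - a‖ := by
    rw [norm_pos_iff]
    intro h
    rw [h] at t1
    unfold dt at t1
    simp at t1
    linarith
  exact acute_core hD ha hb hd n0 n1 n2 hs hP hRc rfl eb ed g hga hgb hgd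

end Pool.Agent.Q208.DI
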