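import Pool.Agent.Q208.DI.Del2
import Pool.Agent.Q208.DI.Tri3

/-!
# The upper bound
-/

set_option autoImplicit false

namespace Pool.Agent.Q208.DI

open MeasureTheory Set Metric

theorem cst_pos : 0 < cst := by linarith [cst_gt]

/-- the standing hypotheses -/
structure Hyp (Ω : Set ℂ) (ρ M0 : ℝ) : Prop where
  op : IsOpen Ω
  pos : 0 < ρ
  M0pos : 0 < M0
  sub : Ω ⊆ ball 0 M0
  le : ∀ x, infDist x Ωᶜ ≤ ρ

variable {Ω : Set ℂ} {ρ M0 η : ℝ}

theorem Hyp.far (H : Hyp Ω ρ M0) {x : ℂ} (hx : M0 ≤ ‖x‖) : x ∈ Ωᶜ := by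
  intro h
  have := H.sub h
  rw [mem_ball_zero_iff] at this
  linarith

theorem Hyp.ne (H : Hyp Ω ρ M0) : (Ωᶜ).Nonempty :=
  ⟨(M0 : ℂ), H.far (by rw [Complex.norm_real]; exact le_abs_self _)⟩

theorem Hyp.sub' (η : ℝ) : Ωᶜ ⊆ cthickening η Ωᶜ := self_subset_cthickening _

theorem Hyp.le' (H : Hyp Ω ρ M0) (η : ℝ) (x : ℂ) : infDist x (cthickening η Ωᶜ) ≤ ρ :=
  (infDist_le_infDist_of_subset (Hyp.sub' η) H.ne).trans (H.le x)

theorem Hyp.dist_add (H : Hyp Ω ρ M0) (hη : 0 < η) (x : ℂ) :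
    infDist x Ωᶜ ≤ infDist x (cthickening η Ωᶜ) + η := by
  obtain ⟨y, hy, hxy⟩ := (isClosed_cthickening (δ := η) (E := Ωᶜ)).exists_infDist_eq_dist
    (H.ne.mono (Hyp.sub' η)) x
  have h1 : infDist y Ωᶜ ≤ η := by
    rw [mem_cthickening_iff] at hy
    unfold infDist
    exact ENNReal.toReal_le_of_le_ofReal hη.le hy
  have h2 := infDist_le_infDist_add_dist (s := Ωᶜ) (x := x) (y := y)
  linarith

/-- big triangles are contained in the domain, and have a small circumradius -/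
theorem Hyp.big (H : Hyp Ω ρ M0) (hη : 0 < η) (hη2 : η ≤ ρ / 8) {P : Set ℂ}
    (hPK : P ⊆ cthickening η Ωᶜ)
    (hnet : ∀ y ∈ cthickening η Ωᶜ, ‖y‖ ≤ M0 + 10 * ρ → ∃ q ∈ P, ‖y - q‖ < η / 2)
    {a b d o : ℂ} {r2 : ℝ} (ha : a ∈ P) (va : ‖a - o‖ ^ 2 ≤ r2) (vb : ‖b - o‖ ^ 2 ≤ r2)
    (vd : ‖d - o‖ ^ 2 ≤ r2) (hall : ∀ q ∈ P, r2 - (η / 2) ^ 2 ≤ ‖q - o‖ ^ 2)
    {x : ℂ} (hx : In x a b d) (hxΩ : x ∈ Ω) (hbig : cst * ρ < infDist x (cthickening η Ωᶜ)) :
    √r2 ≤ ρ + 3 * (η / 2) ∧ Tr a b d ⊆ Ω := by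
  have hρ := H.pos
  set K := cthickening η Ωᶜ with hK
  set ε := η / 2 with hε
  have hε0 : 0 < ε := by positivity
  have hε2 : ε ≤ ρ / 16 := by rw [hε]; linarith
  have hr2 : 0 ≤ r2 := (sq_nonneg _).trans va
  set Rv := √r2 with hRv
  have hRv0 : 0 ≤ Rv := Real.sqrt_nonneg _
  have hRvsq : Rv ^ 2 = r2 := Real.sq_sqrt hr2
  have va' : ‖a - o‖ ≤ Rv := Real.le_sqrt_of_sq_le va
  have vb' : ‖b - o‖ ≤ Rv := Real.le_sqrt_of_sq_le vb
  have vd' : ‖d - o‖ ≤ Rv := Real.le_sqrt_of_sq_le vd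
  have hxo : ‖x - o‖ ≤ Rv := hx.dist_le va' vb' vd'
  have hx0 : ‖x‖ < M0 := by
    have := H.sub hxΩ
    rwa [mem_ball_zero_iff] at this
  have hlow : 7 / 24 * ρ < Rv := by
    have h1 : infDist x K ≤ ‖x - a‖ := by
      rw [← dist_eq_norm]; exact infDist_le_dist_of_mem (hPK ha)
    have h2 : ‖x - a‖ ≤ ‖x - o‖ + ‖a - o‖ := by
      calc ‖x - a‖ = ‖(x - o) - (a - o)‖ := by congr 1; ring
        _ ≤ _ := norm_sub_le _ _
    have h3 := cst_gt
    nlinarith
  have hfar : ∀ q ∈ P, Rv - ε ≤ ‖q - o‖ := by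
    intro q hq
    by_contra hcon
    push Not at hcon
    have h1 := hall q hq
    have h2 : ‖q - o‖ ^ 2 < (Rv - ε) ^ 2 := by
      have := norm_nonneg (q - o)
      nlinarith
    nlinarith
  have hRpos : 0 < Rv := by linarith
  have B1 : Rv ≤ ρ + 3 * ε := by
    by_contra hcon
    push Not at hcon
    set t := (ρ + 3 * ε) / Rv with ht
    have ht1 : t < 1 := by rw [ht, div_lt_one hRpos]; exact hcon
    have ht0 : 0 ≤ t := by positivity
    have htR : t * Rv = ρ + 3 * ε := by rw [ht, div_mul_cancel₀ _ hRpos.ne']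
    set z := x + t • (o - x) with hz
    have hzo : ‖z - o‖ ≤ Rv - (ρ + 3 * ε) := by
      have : z - o = (1 - t) • (x - o) := by
        rw [hz, sub_smul, one_smul, smul_sub, smul_sub]; ring
      rw [this, norm_smul, Real.norm_of_nonneg (by linarith)]
      nlinarith [norm_nonneg (x - o)]
    have hzx : ‖z - x‖ ≤ ρ + 3 * ε := by
      have : z - x = t • (o - x) := by rw [hz]; ring
      rw [this, norm_smul, Real.norm_of_nonneg ht0, norm_sub_rev, ← htR]
      exact mul_le_mul_of_nonneg_left hxo ht0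
    have h1 : infDist z K < ρ + ε := lt_of_le_of_lt (H.le' η z) (by linarith)
    rw [infDist_lt_iff (H.ne.mono (Hyp.sub' η))] at h1
    obtain ⟨y, hy, hzy⟩ := h1
    rw [dist_eq_norm] at hzy
    have hyn : ‖y‖ ≤ M0 + 10 * ρ := by
      have : ‖y‖ ≤ ‖x‖ + ‖z - x‖ + ‖z - y‖ := by
        calc ‖y‖ = ‖x + (z - x) - (z - y)‖ := by congr 1; ring
          _ ≤ ‖x + (z - x)‖ + ‖z - y‖ := norm_sub_le _ _
          _ ≤ _ := by gcongr; exact norm_add_le _ _
      linarith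
    obtain ⟨q, hq, hyq⟩ := hnet y hy hyn
    have h3 := hfar q hq
    have h4 : ‖q - o‖ ≤ ‖z - o‖ + ‖z - y‖ + ‖y - q‖ := by
      calc ‖q - o‖ = ‖(z - o) - (z - y) - (y - q)‖ := by congr 1; ring
        _ ≤ ‖(z - o) - (z - y)‖ + ‖y - q‖ := norm_sub_le _ _
        _ ≤ _ := by gcongr; exact norm_sub_le _ _
    linarith
  refine ⟨B1, fun w hw => ?_⟩
  by_contra hwΩ
  have hwo : ‖w - o‖ ≤ Rv := In.dist_le hw va' vb' vd'
  have hηR : η < Rv := by linarith
  set t := η / Rv with ht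
  have ht1 : t < 1 := by rw [ht, div_lt_one hRpos]; exact hηR
  have ht0 : 0 ≤ t := by positivity
  have htR : t * Rv = η := by rw [ht, div_mul_cancel₀ _ hRpos.ne']
  set v := w + t • (o - w) with hv
  have hvK : v ∈ K := by
    refine mem_cthickening_of_dist_le v w η Ωᶜ hwΩ ?_
    rw [dist_eq_norm]
    have : v - w = t • (o - w) := by rw [hv]; ring
    rw [this, norm_smul, Real.norm_of_nonneg ht0, norm_sub_rev, ← htR]
    exact mul_le_mul_of_nonneg_left hwo ht0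
  have hvo : ‖v - o‖ ≤ Rv - η := by
    have : v - o = (1 - t) • (w - o) := by
      rw [hv, sub_smul, one_smul, smul_sub, smul_sub]; ring
    rw [this, norm_smul, Real.norm_of_nonneg (by linarith)]
    nlinarith [norm_nonneg (w - o)]
  have hvn : ‖v‖ ≤ M0 + 10 * ρ := by
    have : ‖v‖ ≤ ‖x‖ + ‖x - o‖ + ‖v - o‖ := by
      calc ‖v‖ = ‖x - (x - o) + (v - o)‖ := by congr 1; ring
        _ ≤ ‖x - (x - o)‖ + ‖v - o‖ := norm_add_le _ _
        _ ≤ _ := by gcongr; exact norm_sub_le _ _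
    linarith
  obtain ⟨q, hq, hvq⟩ := hnet v hvK hvn
  have h3 := hfar q hq
  have h4 : ‖q - o‖ ≤ ‖v - o‖ + ‖v - q‖ := by
    calc ‖q - o‖ = ‖(v - o) - (v - q)‖ := by congr 1; ring
      _ ≤ _ := norm_sub_le _ _
  linarith

/-- the estimate on one triangle -/
theorem Hyp.piece (H : Hyp Ω ρ M0) (hη : 0 < η) (hη2 : η ≤ ρ / 8) {P : Set ℂ}
    (hPK : P ⊆ cthickening η Ωᶜ)
    (hnet : ∀ y ∈ cthickening η Ωᶜ, ‖y‖ ≤ M0 + 10 * ρ → ∃ q ∈ P, ‖y - q‖ < η / 2)
    {a b d o : ℂ} {r2 : ℝ} (ha : a ∈ P) (hb : b ∈ P) (hd : d ∈ P)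
    (va : ‖a - o‖ ^ 2 ≤ r2) (vb : ‖b - o‖ ^ 2 ≤ r2)
    (vd : ‖d - o‖ ^ 2 ≤ r2) (hall : ∀ q ∈ P, r2 - (η / 2) ^ 2 ≤ ‖q - o‖ ^ 2)
    (hD : 0 < cr (b - a) (d - a)) :
    ∫⁻ x in Tr a b d ∩ Ω, ENNReal.ofReal (infDist x (cthickening η Ωᶜ)) ≤
      ENNReal.ofReal (cst * (ρ + 3 * (η / 2))) * volume (Tr a b d ∩ Ω) := by
  have hc := cst_pos
  by_cases h : ∀ x ∈ Tr a b d ∩ Ω, infDist x (cthickening η Ωᶜ) ≤ cst * ρ
  · calc ∫⁻ x in Tr a b d ∩ Ω, ENNReal.ofReal (infDist x (cthickening η Ωᶜ))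
        ≤ ∫⁻ x in Tr a b d ∩ Ω, ENNReal.ofReal (cst * (ρ + 3 * (η / 2))) := by
          refine setLIntegral_mono measurable_const fun x hx => ENNReal.ofReal_le_ofReal ?_
          refine (h x hx).trans ?_
          gcongr; linarith
      _ = _ := by rw [setLIntegral_const]
  · push Not at h
    obtain ⟨x, hx, hbig⟩ := h
    obtain ⟨hR, hsub⟩ := H.big hη hη2 hPK hnet ha va vb vd hall hx.1 hx.2 hbig
    rw [inter_eq_left.2 hsub]
    calc ∫⁻ x in Tr a b d, ENNReal.ofReal (infDist x (cthickening η Ωᶜ))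
        ≤ ∫⁻ x in hull ![a, b, d], ENNReal.ofReal (infDist x (cthickening η Ωᶜ)) :=
          lintegral_mono_set (Tr_subset_hull a b d)
      _ ≤ ENNReal.ofReal (cst * √r2 * (cr (b - a) (d - a) / 2)) := by
          refine tri_bound hD (Real.le_sqrt_of_sq_le va) (Real.le_sqrt_of_sq_le vb)
            (Real.le_sqrt_of_sq_le vd) _ ?_ ?_ ?_
          · intro z; rw [← dist_eq_norm]; exact infDist_le_dist_of_mem (hPK ha)
          · intro z; rw [← dist_eq_norm]; exact infDist_le_dist_of_mem (hPK hb)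
          · intro z; rw [← dist_eq_norm]; exact infDist_le_dist_of_mem (hPK hd)
      _ ≤ ENNReal.ofReal (cst * (ρ + 3 * (η / 2)) * (cr (b - a) (d - a) / 2)) := by
          refine ENNReal.ofReal_le_ofReal ?_
          gcongr
      _ = ENNReal.ofReal (cst * (ρ + 3 * (η / 2))) * ENNReal.ofReal (cr (b - a) (d - a) / 2) := by
          rw [ENNReal.ofReal_mul]
          have := H.pos
          positivity
      _ ≤ _ := by
          gcongr
          exact volume_Tr hD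

/-- the bound for the thickened complement -/
theorem Hyp.main_eta (H : Hyp Ω ρ M0) (hη : 0 < η) (hη2 : η ≤ ρ / 8) :
    ∫⁻ x in Ω, ENNReal.ofReal (infDist x (cthickening η Ωᶜ)) ≤
      ENNReal.ofReal (cst * (ρ + 3 * (η / 2))) * volume Ω := by
  classical
  have hM0 := H.M0pos
  set K := cthickening η Ωᶜ with hK
  have hcomp : IsCompact (K ∩ closedBall 0 (M0 + 10 * ρ)) :=
    (isCompact_closedBall _ _).inter_left isClosed_cthickening
  obtain ⟨t, htK, htf, htc⟩ := hcomp.finite_cover_balls (e := η / 2) (by positivity)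
  set q1 : ℂ := ⟨4 * M0, 0⟩ with hq1
  set q2 : ℂ := ⟨-4 * M0, 4 * M0⟩ with hq2
  set q3 : ℂ := ⟨-4 * M0, -4 * M0⟩ with hq3
  have far1 : q1 ∈ K := Hyp.sub' η (H.far (by
    refine le_trans ?_ (Complex.abs_re_le_norm _)
    simp only [hq1]; rw [abs_of_nonneg (by positivity)]; linarith))
  have far2 : q2 ∈ K := Hyp.sub' η (H.far (by
    refine le_trans ?_ (Complex.abs_im_le_norm _)
    simp only [hq2]; rw [abs_of_nonneg (by positivity)]; linarith))
  have far3 : q3 ∈ K := Hyp.sub' η (H.far (by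
    refine le_trans ?_ (Complex.abs_im_le_norm _)
    simp only [hq3]; rw [neg_mul, abs_neg, abs_of_nonneg (by positivity)]; linarith))
  set P : Finset ℂ := htf.toFinset ∪ {q1, q2, q3} with hP
  have hPK : (P : Set ℂ) ⊆ K := by
    intro q hq
    rw [hP] at hq
    simp only [Finset.coe_union, Finite.coe_toFinset, Finset.coe_insert,
      Finset.coe_singleton, mem_union, mem_insert_iff, mem_singleton_iff] at hq
    rcases hq with h | h | h | h
    · exact (htK h).1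
    · rw [h]; exact far1
    · rw [h]; exact far2
    · rw [h]; exact far3
  have hnet : ∀ y ∈ K, ‖y‖ ≤ M0 + 10 * ρ → ∃ q ∈ (P : Set ℂ), ‖y - q‖ < η / 2 := by
    intro y hy hyn
    have : y ∈ ⋃ x ∈ t, ball x (η / 2) := htc ⟨hy, by rwa [mem_closedBall_zero_iff]⟩
    rw [mem_iUnion₂] at this
    obtain ⟨q, hq, hyq⟩ := this
    refine ⟨q, ?_, by rwa [mem_ball_iff_norm] at hyq⟩
    rw [hP]; simp [hq]
  set p : Fin P.card → ℂ := fun i => (P.equivFin.symm i : ℂ) with hp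
  have hinj : Function.Injective p := fun i j h =>
    P.equivFin.symm.injective (Subtype.ext h)
  have hmem : ∀ i, p i ∈ (P : Set ℂ) := fun i => (P.equivFin.symm i).2
  have hsurj : ∀ q ∈ (P : Set ℂ), ∃ i, p i = q := fun q hq =>
    ⟨P.equivFin ⟨q, hq⟩, by simp [hp]⟩
  obtain ⟨h, hh, hgen⟩ := exists_generic p (fun l => ‖p l‖ ^ 2) (δ := (η / 2) ^ 2) (by positivity)
  obtain ⟨i1, hi1⟩ := hsurj q1 (by rw [hP]; simp)
  obtain ⟨i2, hi2⟩ := hsurj q2 (by rw [hP]; simp)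
  obtain ⟨i3, hi3⟩ := hsurj q3 (by rw [hP]; simp)
  -- the cover
  have hcover : (Ω : Set ℂ) ≤ᵐ[volume]
      (⋃ t : Idx p h, Tr (p t.1.1) (p t.1.2.1) (p t.1.2.2) ∩ Ω : Set ℂ) := by
    filter_upwards [ae_gen p] with x hx hxΩ
    have hx0 : ‖x‖ < M0 := by
      have := H.sub hxΩ
      rwa [mem_ball_zero_iff] at this
    have hre := (Complex.abs_re_le_norm x).trans hx0.le
    have him := (Complex.abs_im_le_norm x).trans hx0.le
    rw [abs_le] at hre him
    have hin : In x (p i1) (p i2) (p i3) := by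
      rw [hi1, hi2, hi3]
      refine ⟨?_, ?_, ?_⟩
      · unfold cr; simp [hq2, hq3]; nlinarith
      · unfold cr; simp [hq1, hq3]; nlinarith [mul_nonneg hM0.le (sub_nonneg.2 hre.2), mul_nonneg hM0.le (sub_nonneg.2 him.2), mul_pos hM0 hM0, mul_nonneg hM0.le (sub_nonneg.2 hre.1), mul_nonneg hM0.le (sub_nonneg.2 him.1)]
      · unfold cr; simp [hq1, hq2]; nlinarith [mul_nonneg hM0.le (sub_nonneg.2 hre.2), mul_nonneg hM0.le (sub_nonneg.2 him.2), mul_pos hM0 hM0, mul_nonneg hM0.le (sub_nonneg.2 hre.1), mul_nonneg hM0.le (sub_nonneg.2 him.1)]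
    obtain ⟨t, ht, hxt⟩ := exists_idx (h := h) hinj hx i1 i2 i3 hin
    exact mem_iUnion.2 ⟨⟨t, ht⟩, hxt, hxΩ⟩
  have hmeas : ∀ t : Idx p h, MeasurableSet (Tr (p t.1.1) (p t.1.2.1) (p t.1.2.2) ∩ Ω) :=
    fun t => ((isOpen_Tr _ _ _).inter H.op).measurableSet
  have hdisj : Pairwise (Function.onFun Disjoint
      fun t : Idx p h => Tr (p t.1.1) (p t.1.2.1) (p t.1.2.2) ∩ Ω) := by
    intro t t' hne
    rw [Function.onFun, Set.disjoint_left]
    intro x hx hx'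
    exact hne (Subtype.ext (Idx_disjoint hgen t.2 t'.2 hx.1 hx'.1))
  calc ∫⁻ x in Ω, ENNReal.ofReal (infDist x K)
      ≤ ∫⁻ x in ⋃ t : Idx p h, Tr (p t.1.1) (p t.1.2.1) (p t.1.2.2) ∩ Ω,
        ENNReal.ofReal (infDist x K) := lintegral_mono_set' hcover
    _ ≤ ∑' t : Idx p h, ∫⁻ x in Tr (p t.1.1) (p t.1.2.1) (p t.1.2.2) ∩ Ω,
        ENNReal.ofReal (infDist x K) := lintegral_iUnion_le _ _
    _ ≤ ∑' t : Idx p h, ENNReal.ofReal (cst * (ρ + 3 * (η / 2))) *
        volume (Tr (p t.1.1) (p t.1.2.1) (p t.1.2.2) ∩ Ω) := by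
        refine ENNReal.tsum_le_tsum fun t => ?_
        obtain ⟨h1, h2, h3, o, κ, hd⟩ := t.2
        have hn : ∀ q : ℂ, ‖q - o‖ ^ 2 = ‖q‖ ^ 2 - 2 * dt o q + dt o o := by
          intro q; simp only [norm_sq_eq, dt]; simp; ring
        have hv : ∀ l, aff o κ (p l) = h l → ‖p l - o‖ ^ 2 ≤ κ + dt o o := by
          intro l hl
          rw [hn]
          unfold aff at hl
          linarith [(hh l).1]
        refine H.piece hη hη2 hPK hnet (hmem _) (hmem _) (hmem _) (o := o) (r2 := κ + dt o o)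
          (hv _ hd.1) (hv _ hd.2.1) (hv _ hd.2.2.1) ?_ h3
        intro q hq
        obtain ⟨l, rfl⟩ := hsurj q hq
        rw [hn]
        have h4 := hd.2.2.2 l
        unfold aff at h4
        linarith [(hh l).2]
    _ = ENNReal.ofReal (cst * (ρ + 3 * (η / 2))) *
        volume (⋃ t : Idx p h, Tr (p t.1.1) (p t.1.2.1) (p t.1.2.2) ∩ Ω) := by
        rw [ENNReal.tsum_mul_left, measure_iUnion hdisj hmeas]
    _ ≤ _ := by
        gcongr
        exact iUnion_subset fun t => inter_subset_right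

theorem Hyp.lint (H : Hyp Ω ρ M0) (hη : 0 < η) (hη2 : η ≤ ρ / 8) :
    ∫⁻ x in Ω, ENNReal.ofReal (infDist x Ωᶜ) ≤
      ENNReal.ofReal (cst * (ρ + 3 * (η / 2)) + η) * volume Ω := by
  have hc := cst_pos
  have hρ := H.pos
  calc ∫⁻ x in Ω, ENNReal.ofReal (infDist x Ωᶜ)
      ≤ ∫⁻ x in Ω, (ENNReal.ofReal (infDist x (cthickening η Ωᶜ)) + ENNReal.ofReal η) := by
        refine lintegral_mono fun x => ?_
        rw [← ENNReal.ofReal_add infDist_nonneg hη.le]
        exact ENNReal.ofReal_le_ofReal (H.dist_add hη x)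
    _ = (∫⁻ x in Ω, ENNReal.ofReal (infDist x (cthickening η Ωᶜ))) + ENNReal.ofReal η * volume Ω := by
        rw [lintegral_add_right _ measurable_const, setLIntegral_const]
    _ ≤ ENNReal.ofReal (cst * (ρ + 3 * (η / 2))) * volume Ω + ENNReal.ofReal η * volume Ω := by
        gcongr
        exact H.main_eta hη hη2
    _ = _ := by
        rw [← add_mul, ENNReal.ofReal_add (by positivity) hη.le]

theorem Hyp.vol_lt (H : Hyp Ω ρ M0) : volume Ω < ⊤ :=
  (measure_mono H.sub).trans_lt measure_ball_lt_top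

/-- **The upper bound**, for real integrals. -/
theorem Hyp.upper (H : Hyp Ω ρ M0) :
    ∫ x in Ω, infDist x Ωᶜ ≤ cst * ρ * (volume Ω).toReal := by
  have hc := cst_pos
  have hρ := H.pos
  set V := (volume Ω).toReal with hV
  have hV0 : 0 ≤ V := ENNReal.toReal_nonneg
  have key : ∀ η : ℝ, 0 < η → η ≤ ρ / 8 →
      ∫ x in Ω, infDist x Ωᶜ ≤ (cst * (ρ + 3 * (η / 2)) + η) * V := by
    intro η hη hη2
    rw [integral_eq_lintegral_of_nonneg_ae (Filter.Eventually.of_forall fun _ => infDist_nonneg)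
      (continuous_infDist_pt _).aestronglyMeasurable]
    have h1 := H.lint hη hη2
    have h2 := ENNReal.toReal_mono (ENNReal.mul_ne_top ENNReal.ofReal_ne_top H.vol_lt.ne) h1
    rwa [ENNReal.toReal_mul, ENNReal.toReal_ofReal (by positivity)] at h2
  by_contra hcon
  push Not at hcon
  set I := ∫ x in Ω, infDist x Ωᶜ with hI
  set gap := I - cst * ρ * V with hgap
  have hg : 0 < gap := by rw [hgap]; linarith
  set A := (cst * (3 / 2) + 1) * V + 1 with hA
  have hA0 : 0 < A := by positivity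
  have hη : 0 < min (ρ / 8) (gap / (2 * A)) := by positivity
  have h1 := key _ hη (min_le_left _ _)
  have h2 : min (ρ / 8) (gap / (2 * A)) ≤ gap / (2 * A) := min_le_right _ _
  set η := min (ρ / 8) (gap / (2 * A)) with hηd
  have h3 : η * A ≤ gap / 2 := by
    calc η * A ≤ gap / (2 * A) * A := by gcongr
      _ = gap / 2 := by field_simp
  have h4 : (cst * (ρ + 3 * (η / 2)) + η) * V = cst * ρ * V + η * (A - 1) := by
    rw [hA]; ring
  rw [h4] at h1
  nlinarith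

end Pool.Agent.Q208.DI
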